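import Mathlib

/-!
# Similarity tilings of the Euclidean plane: the definitions of MP_2cc943_co

All the notions are those of the problem file.
-/

set_option autoImplicit false

namespace Pool.Agent.H81.SimTiling

/-- The Euclidean plane. -/
abbrev Plane : Type := EuclideanSpace ℝ (Fin 2)

/-- `t` is a closed topological disk: it is homeomorphic to the closed unit disk. -/
def IsClosedDisk (t : Set Plane) : Prop :=
  Nonempty (t ≃ₜ Metric.closedBall (0 : Plane) 1)

/-- A tiling: a countable family of closed topological disks that cover the plane and have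
pairwise disjoint interiors. -/
structure IsTiling (T : Set (Set Plane)) : Prop where
  countable : T.Countable
  disk : ∀ t ∈ T, IsClosedDisk t
  cover : ⋃₀ T = Set.univ
  disjoint : ∀ s ∈ T, ∀ t ∈ T, s ≠ t → Disjoint (interior s) (interior t)

/-- `s` and `t` are congruent: some isometry of the plane maps `s` onto `t` (reflections are
allowed). -/
def Congruent (s t : Set Plane) : Prop := ∃ g : Plane ≃ᵢ Plane, g '' s = t

/-- `P` admits `T`: `T` is a monohedral tiling with prototile `P`. -/
def Admits (P : Set Plane) (T : Set (Set Plane)) : Prop :=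
  IsTiling T ∧ ∀ t ∈ T, Congruent P t

/-- `T` is monohedral. -/
def Monohedral (T : Set (Set Plane)) : Prop := ∃ P : Set Plane, Admits P T

/-- A similarity of the plane: an isometry followed by a scaling `x ↦ c x` with `c > 0`. -/
def IsSimilarity (f : Plane → Plane) : Prop :=
  ∃ (g : Plane ≃ᵢ Plane) (c : ℝ), 0 < c ∧ ∀ x, f x = c • g x

/-- The image of a family of tiles under a map of the plane. -/
def mapTiling (f : Plane → Plane) (T : Set (Set Plane)) : Set (Set Plane) :=
  (fun t : Set Plane => f '' t) '' T

/-- Two tilings are equal (in the sense of the problem): some similarity maps one onto the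
other. -/
def TilingEqual (T T' : Set (Set Plane)) : Prop :=
  ∃ f : Plane → Plane, IsSimilarity f ∧ mapTiling f T = T'

/-- The tiling `T₁` is a `k`-composition of the tiling `T₂`: every tile of `T₁` is a union of
exactly `k` tiles of `T₂`. -/
def IsKComposition (k : ℕ) (T₁ T₂ : Set (Set Plane)) : Prop :=
  IsTiling T₁ ∧ IsTiling T₂ ∧
    ∀ Q ∈ T₁, ∃ S : Finset (Set Plane), (S : Set (Set Plane)) ⊆ T₂ ∧ S.card = k ∧
      ⋃₀ (S : Set (Set Plane)) = Q

/-- `T` is equal to some `k`-composition of itself. -/
def EqualsKComposition (k : ℕ) (T : Set (Set Plane)) : Prop :=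
  ∃ T₁, IsKComposition k T₁ T ∧ TilingEqual T T₁

/-- `T` is a `k`-similarity tiling: it is monohedral, `k ≥ 2`, `T` is equal to some
`k`-composition of itself, and for no `j` with `1 < j < k` is `T` equal to a `j`-composition
of itself. -/
def IsSimilarityTiling (k : ℕ) (T : Set (Set Plane)) : Prop :=
  Monohedral T ∧ 2 ≤ k ∧ EqualsKComposition k T ∧
    ∀ j, 1 < j → j < k → ¬ EqualsKComposition j T

/-- The `k`-composition of `T` is unique: there is exactly one `k`-composition of `T` that is
equal to `T`. -/
def UniqueKComposition (k : ℕ) (T : Set (Set Plane)) : Prop :=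
  ∃! T₁, IsKComposition k T₁ T ∧ TilingEqual T T₁

end Pool.Agent.H81.SimTiling
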