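import Mathlib
set_option autoImplicit false
open Set Topology Filter

namespace Pool.Agent.H81.SimTiling

section Dyn
variable {X V : Type*} [TopologicalSpace X] [CompactSpace X] [T2Space X]
  [AddGroup V]

omit [T2Space X] [AddGroup V] in
/-- existence of a minimal closed nonempty invariant set -/
theorem exists_minimal_invariant [Nonempty X] (τ : V → X → X) (_hτc : ∀ v, Continuous (τ v)) :
    ∃ M : Set X, IsClosed M ∧ M.Nonempty ∧ (∀ v, ∀ x ∈ M, τ v x ∈ M) ∧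
      ∀ A ⊆ M, IsClosed A → A.Nonempty → (∀ v, ∀ x ∈ A, τ v x ∈ A) → A = M := by
  let S : Set (Set X) := {A | IsClosed A ∧ A.Nonempty ∧ ∀ v, ∀ x ∈ A, τ v x ∈ A}
  obtain ⟨M, -, hM⟩ := zorn_superset_nonempty S (by
    intro c hcS hc hcne
    refine ⟨⋂₀ c, ⟨?_, ?_, ?_⟩, fun s hs => sInter_subset_of_mem hs⟩
    · exact isClosed_sInter fun s hs => (hcS hs).1
    · have : Nonempty c := hcne.to_subtype
      exact IsCompact.nonempty_sInter_of_directed_nonempty_isCompact_isClosed (S := c)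
        (by
          intro s hs t ht
          rcases hc.total hs ht with h | h
          · exact ⟨s, hs, Subset.rfl, h⟩
          · exact ⟨t, ht, h, Subset.rfl⟩)
        (fun s hs => (hcS hs).2.1) (fun s hs => (hcS hs).1.isCompact) (fun s hs => (hcS hs).1)
    · intro v x hx s hs
      exact (hcS hs).2.2 v x (hx s hs)) univ ⟨isClosed_univ, univ_nonempty, fun _ _ _ => mem_univ _⟩
  refine ⟨M, hM.prop.1, hM.prop.2.1, hM.prop.2.2, ?_⟩
  intro A hAM hA hAne hAinv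
  exact Subset.antisymm hAM (hM.le_of_le (y := A) ⟨hA, hAne, hAinv⟩ hAM)

theorem dyn_aux (τ : V → X → X) (hτc : ∀ v, Continuous (τ v))
    (hτ0 : ∀ x, τ 0 x = x) (hτadd : ∀ v w x, τ (v + w) x = τ v (τ w x))
    (F : ℕ → ℕ → Set X) (hF : ∀ k n, IsClosed (F k n))
    (hmono : ∀ k n n', n ≤ n' → F k n ⊆ F k n')
    (htr : ∀ k n v, ∃ n', ∀ x ∈ F k n, τ v x ∈ F k n')
    (M : Set X) (hMc : IsClosed M) (hMne : M.Nonempty) (hMinv : ∀ v, ∀ x ∈ M, τ v x ∈ M)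
    (hMmin : ∀ A ⊆ M, IsClosed A → A.Nonempty → (∀ v, ∀ x ∈ A, τ v x ∈ A) → A = M)
    (K : Set ℕ) (hK : ∀ x ∈ M, ∃ k ∈ K, ∃ n, x ∈ F k n) :
    ∃ k ∈ K, ∃ n, M ⊆ F k n := by
  have : CompactSpace M := isCompact_iff_compactSpace.mp hMc.isCompact
  have : Nonempty M := hMne.to_subtype
  -- Baire
  obtain ⟨⟨k, n⟩, y, hy⟩ := nonempty_interior_of_iUnion_of_closed (X := M) (ι := K × ℕ)
    (f := fun p => Subtype.val ⁻¹' F p.1 p.2)
    (fun p => (hF _ _).preimage continuous_subtype_val)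
    (by
      rw [eq_univ_iff_forall]
      rintro ⟨x, hx⟩
      obtain ⟨k, hk, n, hn⟩ := hK x hx
      exact mem_iUnion.2 ⟨(⟨k, hk⟩, n), hn⟩)
  obtain ⟨W, hW, hWo, hyW⟩ := mem_interior.1 hy
  obtain ⟨U, hU, rfl⟩ := isOpen_induced_iff.1 hWo
  have hUF : ∀ x ∈ M, x ∈ U → x ∈ F k n := by
    intro x hx hxU
    have h3 : (⟨x, hx⟩ : M) ∈ (Subtype.val ⁻¹' F k n : Set M) := hW hxU
    exact h3
  -- every point of M can be moved into U
  have hmove : ∀ x ∈ M, ∃ v, τ v x ∈ U := by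
    by_contra hcon
    push Not at hcon
    obtain ⟨x₀, hx₀, hx₀U⟩ := hcon
    let A : Set X := {x | x ∈ M ∧ ∀ v, τ v x ∉ U}
    have hA : A = M := by
      apply hMmin A (fun x hx => hx.1)
      · have : A = M ∩ ⋂ v, (τ v) ⁻¹' Uᶜ := by
          ext x; simp [A]
        rw [this]
        exact hMc.inter (isClosed_iInter fun v => hU.isClosed_compl.preimage (hτc v))
      · exact ⟨x₀, hx₀, hx₀U⟩
      · intro v x hx
        refine ⟨hMinv v x hx.1, fun w => ?_⟩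
        rw [← hτadd]
        exact hx.2 _
    have hyA : (y : X) ∈ A := by rw [hA]; exact y.2
    have := hyA.2 0
    rw [hτ0] at this
    exact this hyW
  obtain ⟨t, ht⟩ := hMc.isCompact.elim_finite_subcover (fun v => (τ v) ⁻¹' U)
    (fun v => hU.preimage (hτc v)) (fun x hx => by
      obtain ⟨v, hv⟩ := hmove x hx
      exact mem_iUnion.2 ⟨v, hv⟩)
  have htr' : ∀ v : V, ∃ n', ∀ x ∈ F k n, τ (-v) x ∈ F k n' := fun v => htr k n (-v)
  choose n' hn' using htr'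
  refine ⟨k, k.2, t.sup n', ?_⟩
  intro x hx
  obtain ⟨v, hv⟩ := mem_iUnion.1 (ht hx)
  obtain ⟨hvt, hv⟩ := mem_iUnion.1 hv
  have h1 : τ v x ∈ F k n := hUF _ (hMinv v x hx) hv
  have h2 := hn' v _ h1
  rw [← hτadd, neg_add_cancel, hτ0] at h2
  exact hmono _ _ _ (Finset.le_sup hvt) h2

theorem dyn_main [Nonempty X] (τ : V → X → X) (hτc : ∀ v, Continuous (τ v))
    (hτ0 : ∀ x, τ 0 x = x) (hτadd : ∀ v w x, τ (v + w) x = τ v (τ w x))
    (F : ℕ → ℕ → Set X) (hF : ∀ k n, IsClosed (F k n))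
    (hmono : ∀ k n n', n ≤ n' → F k n ⊆ F k n')
    (htr : ∀ k n v, ∃ n', ∀ x ∈ F k n, τ v x ∈ F k n')
    (hcov : ∀ x, ∃ k, 2 ≤ k ∧ ∃ n, x ∈ F k n) :
    ∃ x k n, 2 ≤ k ∧ (∀ v, τ v x ∈ F k n) ∧ ∀ j, 2 ≤ j → j < k → ∀ m, x ∉ F j m := by
  classical
  obtain ⟨M, hMc, hMne, hMinv, hMmin⟩ := exists_minimal_invariant τ hτc
  have key := dyn_aux τ hτc hτ0 hτadd F hF hmono htr M hMc hMne hMinv hMmin
  have hex : ∃ k, 2 ≤ k ∧ ∃ n, M ⊆ F k n := by
    obtain ⟨k, hk, n, hn⟩ := key {k | 2 ≤ k} (fun x _ => hcov x)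
    exact ⟨k, hk, n, hn⟩
  obtain ⟨hk2, n, hn⟩ := Nat.find_spec hex
  have hmin : ∀ j < Nat.find hex, ¬ (2 ≤ j ∧ ∃ n, M ⊆ F j n) := fun j hj => Nat.find_min hex hj
  have hx : ∃ x ∈ M, ∀ j ∈ {j | 2 ≤ j ∧ j < Nat.find hex}, ∀ m, x ∉ F j m := by
    by_contra hcon
    push Not at hcon
    obtain ⟨j, hj, m, hm⟩ := key {j | 2 ≤ j ∧ j < Nat.find hex} hcon
    exact hmin j hj.2 ⟨hj.1, m, hm⟩
  obtain ⟨x, hxM, hx⟩ := hx
  exact ⟨x, Nat.find hex, n, hk2, fun v => hn (hMinv v x hxM), fun j h2 hj m => hx j ⟨h2, hj⟩ m⟩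

end Dyn
end Pool.Agent.H81.SimTiling
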