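import Mathlib
import Pool.Agent.H81.SimTiling.Defs

set_option autoImplicit false
open Set Topology Filter

namespace Pool.Agent.H81.SimTiling

/-- pairs (linear part, translation part) -/
abbrev Mo : Type := (Plane →L[ℝ] Plane) × Plane

/-- the affine map attached to a pair -/
def act (m : Mo) (x : Plane) : Plane := m.1 x + m.2

/-- composition -/
def comp (s m : Mo) : Mo := (s.1.comp m.1, s.1 m.2 + s.2)

theorem act_comp (s m : Mo) (x : Plane) : act (comp s m) x = act s (act m x) := by
  simp [act, comp, add_assoc]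

theorem continuous_act_uncurry : Continuous (fun p : Mo × Plane => act p.1 p.2) := by
  unfold act
  fun_prop

theorem continuous_act (m : Mo) : Continuous (act m) := by
  unfold act
  fun_prop

theorem continuous_comp_uncurry : Continuous (fun p : Mo × Mo => comp p.1 p.2) := by
  unfold comp
  refine Continuous.prodMk ?_ ?_
  · exact (continuous_fst.comp continuous_fst).clm_comp (continuous_fst.comp continuous_snd)
  · exact ((continuous_fst.comp continuous_fst).clm_apply (continuous_snd.comp continuous_snd)).add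
      (continuous_snd.comp continuous_fst)

/-- rigid motions -/
def Iso : Set Mo := {m | ∀ x, ‖m.1 x‖ = ‖x‖}

theorem isClosed_Iso : IsClosed Iso := by
  unfold Iso
  rw [Set.ofPred_forall]
  refine isClosed_iInter fun x => ?_
  refine isClosed_eq ?_ continuous_const
  fun_prop

theorem norm_fst_le_of_Iso {m : Mo} (hm : m ∈ Iso) : ‖m.1‖ ≤ 1 := by
  refine m.1.opNorm_le_bound zero_le_one fun x => ?_
  rw [one_mul, hm x]

/-- the isometry of the plane attached to a rigid motion -/
noncomputable def toIso (m : Mo) (hm : m ∈ Iso) : Plane ≃ᵢ Plane :=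
  ((LinearIsometry.toLinearIsometryEquiv (⟨m.1.toLinearMap, hm⟩ : Plane →ₗᵢ[ℝ] Plane)
    rfl).toIsometryEquiv).trans (IsometryEquiv.addRight m.2)

theorem toIso_apply (m : Mo) (hm : m ∈ Iso) (x : Plane) : toIso m hm x = act m x := rfl

theorem dist_act {m : Mo} (hm : m ∈ Iso) (x y : Plane) : dist (act m x) (act m y) = dist x y := by
  rw [← toIso_apply m hm, ← toIso_apply m hm]
  exact (toIso m hm).isometry.dist_eq x y

theorem exists_act_of_isometryEquiv (g : Plane ≃ᵢ Plane) :
    ∃ m ∈ Iso, ∀ x, g x = act m x := by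
  let A := g.toRealAffineIsometryEquiv
  refine ⟨(A.linearIsometryEquiv.toContinuousLinearEquiv.toContinuousLinearMap, g 0), ?_, ?_⟩
  · intro x
    exact A.linearIsometryEquiv.norm_map x
  · intro x
    have h := A.map_vadd 0 x
    simp only [vadd_eq_add, add_zero] at h
    have h2 : A x = g x := rfl
    have h3 : A 0 = g 0 := rfl
    rw [← h2, h, h3]
    rfl

theorem congruent_iff (s t : Set Plane) : Congruent s t ↔ ∃ m ∈ Iso, act m '' s = t := by
  constructor
  · rintro ⟨g, rfl⟩
    obtain ⟨m, hm, h⟩ := exists_act_of_isometryEquiv g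
    refine ⟨m, hm, ?_⟩
    exact Set.image_congr fun x _ => (h x).symm
  · rintro ⟨m, hm, rfl⟩
    exact ⟨toIso m hm, rfl⟩

theorem tendsto_act {ι : Type*} {l : Filter ι} {f : ι → Mo} {z : ι → Plane} {m : Mo}
    {z₀ : Plane} (hf : Tendsto f l (𝓝 m)) (hz : Tendsto z l (𝓝 z₀)) :
    Tendsto (fun i => act (f i) (z i)) l (𝓝 (act m z₀)) := by
  have h0 : Tendsto (fun i => ((f i, z i) : Mo × Plane)) l (𝓝 ((m, z₀) : Mo × Plane)) :=
    hf.prodMk_nhds hz
  have h1 : Tendsto (fun p : Mo × Plane => act p.1 p.2) (𝓝 (m, z₀)) (𝓝 (act m z₀)) :=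
    continuous_act_uncurry.tendsto ((m, z₀) : Mo × Plane)
  have h2 := h1.comp h0
  exact h2

theorem tendsto_comp {ι : Type*} {l : Filter ι} {f g : ι → Mo} {m q : Mo}
    (hf : Tendsto f l (𝓝 m)) (hg : Tendsto g l (𝓝 q)) :
    Tendsto (fun i => comp (f i) (g i)) l (𝓝 (comp m q)) := by
  have h0 : Tendsto (fun i => ((f i, g i) : Mo × Mo)) l (𝓝 ((m, q) : Mo × Mo)) :=
    hf.prodMk_nhds hg
  have h1 : Tendsto (fun p : Mo × Mo => comp p.1 p.2) (𝓝 (m, q)) (𝓝 (comp m q)) :=
    continuous_comp_uncurry.tendsto ((m, q) : Mo × Mo)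
  have h2 := h1.comp h0
  exact h2

end Pool.Agent.H81.SimTiling
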