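import Mathlib
import Pool.Agent.H81.SimTiling.Place

set_option autoImplicit false
open Set Topology Filter

namespace Pool.Agent.H81.SimTiling

theorem IsSimilarity.dist_eq {f : Plane → Plane} (hf : IsSimilarity f) :
    Function.Surjective f ∧ ∃ c : ℝ, 0 < c ∧ ∀ x y, dist (f x) (f y) = c * dist x y := by
  obtain ⟨g, c, hc, h⟩ := hf
  refine ⟨?_, c, hc, ?_⟩
  · intro y
    obtain ⟨x, hx⟩ := g.surjective (c⁻¹ • y)
    refine ⟨x, ?_⟩
    rw [h, hx, smul_smul, mul_inv_cancel₀ hc.ne', one_smul]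
  · intro x y
    rw [h, h, dist_smul₀, g.dist_eq, Real.norm_of_nonneg hc.le]

theorem isSimilarity_of_dist {f : Plane → Plane} (hs : Function.Surjective f) {c : ℝ} (hc : 0 < c)
    (h : ∀ x y, dist (f x) (f y) = c * dist x y) : IsSimilarity f := by
  have hiso : Isometry (fun x => c⁻¹ • f x) := by
    refine Isometry.of_dist_eq fun x y => ?_
    rw [dist_smul₀, h, Real.norm_of_nonneg (inv_nonneg.2 hc.le), ← mul_assoc,
      inv_mul_cancel₀ hc.ne', one_mul]
  have hsurj : Function.Surjective (fun x => c⁻¹ • f x) := by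
    intro y
    obtain ⟨x, hx⟩ := hs (c • y)
    exact ⟨x, by simp only [hx, smul_smul, inv_mul_cancel₀ hc.ne', one_smul]⟩
  refine ⟨IsometryEquiv.mk (Equiv.ofBijective _ ⟨hiso.injective, hsurj⟩) hiso, c, hc, fun x => ?_⟩
  change f x = c • (c⁻¹ • f x)
  rw [smul_smul, mul_inv_cancel₀ hc.ne', one_smul]

theorem isSimilarity_iff {f : Plane → Plane} : IsSimilarity f ↔
    Function.Surjective f ∧ ∃ c : ℝ, 0 < c ∧ ∀ x y, dist (f x) (f y) = c * dist x y :=
  ⟨fun h => h.dist_eq, fun ⟨h, _, hc, hd⟩ => isSimilarity_of_dist h hc hd⟩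

theorem IsSimilarity.injective {f : Plane → Plane} (hf : IsSimilarity f) :
    Function.Injective f := by
  obtain ⟨-, c, hc, h⟩ := hf.dist_eq
  intro x y hxy
  have := h x y
  rw [hxy, dist_self] at this
  have h2 : dist x y = 0 := by
    rcases mul_eq_zero.1 this.symm with h3 | h3
    · exact absurd h3 hc.ne'
    · exact h3
  exact dist_eq_zero.1 h2

theorem IsSimilarity.exists_homeo {f : Plane → Plane} (hf : IsSimilarity f) :
    ∃ h : Plane ≃ₜ Plane, ∀ x, h x = f x := by
  obtain ⟨g, c, hc, h⟩ := hf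
  exact ⟨g.toHomeomorph.trans (Homeomorph.smulOfNeZero c hc.ne'), fun x => (h x).symm⟩

theorem IsSimilarity.comp {f g : Plane → Plane} (hf : IsSimilarity f) (hg : IsSimilarity g) :
    IsSimilarity (f ∘ g) := by
  obtain ⟨hfs, c, hc, hfd⟩ := hf.dist_eq
  obtain ⟨hgs, d, hd, hgd⟩ := hg.dist_eq
  refine isSimilarity_of_dist (hfs.comp hgs) (mul_pos hc hd) fun x y => ?_
  simp only [Function.comp_apply]
  rw [hfd, hgd, mul_assoc]

theorem IsSimilarity.exists_inverse {f : Plane → Plane} (hf : IsSimilarity f) :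
    ∃ g : Plane → Plane, IsSimilarity g ∧ (∀ x, g (f x) = x) ∧ ∀ x, f (g x) = x := by
  obtain ⟨hfs, c, hc, hfd⟩ := hf.dist_eq
  have hinj := hf.injective
  let e : Plane ≃ Plane := Equiv.ofBijective f ⟨hinj, hfs⟩
  refine ⟨e.symm, ?_, fun x => e.symm_apply_apply x, fun x => e.apply_symm_apply x⟩
  refine isSimilarity_of_dist e.symm.surjective (inv_pos.2 hc) fun x y => ?_
  have h1 : f (e.symm x) = x := e.apply_symm_apply x
  have h2 : f (e.symm y) = y := e.apply_symm_apply y
  have h := hfd (e.symm x) (e.symm y)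
  rw [h1, h2] at h
  rw [h, ← mul_assoc, inv_mul_cancel₀ hc.ne', one_mul]

theorem isSimilarity_isometryEquiv (g : Plane ≃ᵢ Plane) : IsSimilarity g :=
  ⟨g, 1, one_pos, fun x => (one_smul ℝ _).symm⟩

theorem isSimilarity_add (v : Plane) : IsSimilarity (fun x => x + v) :=
  isSimilarity_isometryEquiv (IsometryEquiv.addRight v)

/-- similarity pairs -/
def SimM (m : Mo) : Prop := ∀ x, ‖m.1 x‖ = ‖m.1‖ * ‖x‖

theorem exists_norm_one : ∃ e : Plane, ‖e‖ = 1 := exists_norm_eq Plane zero_le_one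

theorem norm_eq_of_forall {A : Plane →L[ℝ] Plane} {c : ℝ} (hc : 0 ≤ c)
    (h : ∀ x, ‖A x‖ = c * ‖x‖) : ‖A‖ = c := by
  refine le_antisymm (A.opNorm_le_bound hc fun x => (h x).le) ?_
  obtain ⟨e, he⟩ := exists_norm_one
  have := A.le_opNorm e
  rw [h, he] at this
  simpa using this

theorem dist_act_sim {m : Mo} (hm : SimM m) (x y : Plane) :
    dist (act m x) (act m y) = ‖m.1‖ * dist x y := by
  unfold act
  rw [dist_add_right, dist_eq_norm, ← map_sub, hm, dist_eq_norm]

theorem SimM.surjective {m : Mo} (hm : SimM m) (h0 : 0 < ‖m.1‖) : Function.Surjective (act m) := by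
  have hinj : Function.Injective m.1.toLinearMap := by
    rw [injective_iff_map_eq_zero]
    intro x hx
    have h1 := hm x
    have h2 : m.1 x = 0 := hx
    rw [h2, norm_zero] at h1
    rcases mul_eq_zero.1 h1.symm with h3 | h3
    · exact absurd h3 h0.ne'
    · exact norm_eq_zero.1 h3
  have hs : Function.Surjective m.1.toLinearMap := LinearMap.surjective_of_injective hinj
  intro y
  obtain ⟨x, hx⟩ := hs (y - m.2)
  refine ⟨x, ?_⟩
  have h2 : m.1 x = y - m.2 := hx
  simp [act, h2]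

theorem SimM.isSimilarity {m : Mo} (hm : SimM m) (h0 : 0 < ‖m.1‖) : IsSimilarity (act m) :=
  isSimilarity_of_dist (hm.surjective h0) h0 (dist_act_sim hm)

theorem IsSimilarity.exists_act {f : Plane → Plane} (hf : IsSimilarity f) :
    ∃ m : Mo, SimM m ∧ 0 < ‖m.1‖ ∧ f = act m := by
  obtain ⟨g, c, hc, h⟩ := hf
  obtain ⟨m, hm, hg⟩ := exists_act_of_isometryEquiv g
  have h1 : ∀ x, ‖(c • m.1) x‖ = c * ‖x‖ := by
    intro x
    rw [_root_.smul_apply, norm_smul, hm x, Real.norm_of_nonneg hc.le]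
  have h2 : ‖c • m.1‖ = c := norm_eq_of_forall hc.le h1
  refine ⟨(c • m.1, c • m.2), ?_, ?_, ?_⟩
  · intro x
    change ‖(c • m.1) x‖ = ‖c • m.1‖ * ‖x‖
    rw [h1, h2]
  · change 0 < ‖c • m.1‖
    rw [h2]; exact hc
  · funext x
    rw [h, hg]
    simp [act, smul_add]

/-! ### images of tilings -/

theorem mapTiling_comp (f g : Plane → Plane) (T : Set (Set Plane)) :
    mapTiling f (mapTiling g T) = mapTiling (f ∘ g) T := by
  unfold mapTiling
  rw [image_image]
  refine image_congr fun t _ => ?_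
  rw [image_image]
  rfl

theorem mapTiling_id_of {f : Plane → Plane} (hf : ∀ x, f x = x) (T : Set (Set Plane)) :
    mapTiling f T = T := by
  have : f = id := funext hf
  subst this
  unfold mapTiling
  simp

theorem mem_mapTiling {f : Plane → Plane} {T : Set (Set Plane)} {t : Set Plane} (ht : t ∈ T) :
    f '' t ∈ mapTiling f T := mem_image_of_mem _ ht

theorem isClosedDisk_image (h : Plane ≃ₜ Plane) {t : Set Plane} (ht : IsClosedDisk t) :
    IsClosedDisk (h '' t) := by
  obtain ⟨e⟩ := ht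
  exact ⟨(h.image t).symm.trans e⟩

theorem isTiling_mapTiling_homeo (h : Plane ≃ₜ Plane) {T : Set (Set Plane)} (hT : IsTiling T) :
    IsTiling (mapTiling h T) := by
  refine ⟨hT.countable.image _, ?_, ?_, ?_⟩
  · rintro _ ⟨t, ht, rfl⟩
    exact isClosedDisk_image h (hT.disk t ht)
  · rw [eq_univ_iff_forall]
    intro y
    obtain ⟨x, rfl⟩ := h.surjective y
    have hx : x ∈ ⋃₀ T := by rw [hT.cover]; trivial
    obtain ⟨t, ht, hxt⟩ := hx
    exact ⟨_, mem_mapTiling ht, mem_image_of_mem _ hxt⟩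
  · rintro _ ⟨s, hs, rfl⟩ _ ⟨t, ht, rfl⟩ hst
    have hne : s ≠ t := fun h' => hst (by rw [h'])
    change Disjoint (interior (h '' s)) (interior (h '' t))
    rw [← h.image_interior, ← h.image_interior]
    exact (disjoint_image_iff h.injective).2 (hT.disjoint s hs t ht hne)

theorem isTiling_mapTiling {f : Plane → Plane} (hf : IsSimilarity f) {T : Set (Set Plane)}
    (hT : IsTiling T) : IsTiling (mapTiling f T) := by
  obtain ⟨h, hh⟩ := hf.exists_homeo
  have : f = h := funext fun x => (hh x).symm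
  rw [this]
  exact isTiling_mapTiling_homeo h hT

theorem isKComposition_mapTiling {f : Plane → Plane} (hf : IsSimilarity f) {k : ℕ}
    {T₁ T₂ : Set (Set Plane)} (h : IsKComposition k T₁ T₂) :
    IsKComposition k (mapTiling f T₁) (mapTiling f T₂) := by
  classical
  obtain ⟨h1, h2, h3⟩ := h
  refine ⟨isTiling_mapTiling hf h1, isTiling_mapTiling hf h2, ?_⟩
  rintro _ ⟨Q, hQ, rfl⟩
  obtain ⟨S, hS, hk, rfl⟩ := h3 Q hQ
  have hinj : Function.Injective (fun t : Set Plane => f '' t) := hf.injective.image_injective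
  refine ⟨S.image (fun t : Set Plane => f '' t), ?_, ?_, ?_⟩
  · rw [Finset.coe_image]
    exact image_mono hS
  · rw [Finset.card_image_of_injective _ hinj, hk]
  · rw [Finset.coe_image, sUnion_image]
    change _ = f '' _
    rw [sUnion_eq_biUnion, image_iUnion₂]

end Pool.Agent.H81.SimTiling
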