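import Mathlib
import Pool.Agent.H81.SimTiling.Sim

set_option autoImplicit false
open Set Topology Filter ComplexConjugate

namespace Pool.Agent.H81.SimTiling

theorem complex_isometry (g : ℂ ≃ᵢ ℂ) : ∃ a b : ℂ, ‖a‖ = 1 ∧
    ((∀ z, g z = a * z + b) ∨ (∀ z, g z = a * conj z + b)) := by
  let A := g.toRealAffineIsometryEquiv
  obtain ⟨a, ha⟩ := linear_isometry_complex A.linearIsometryEquiv
  have key : ∀ z, g z = A.linearIsometryEquiv z + g 0 := by
    intro z
    have h := A.map_vadd 0 z
    simp only [vadd_eq_add, add_zero] at h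
    exact h
  refine ⟨a, g 0, Circle.norm_coe a, ?_⟩
  rcases ha with ha | ha
  · left
    intro z
    rw [key z, ha, rotation_apply]
  · right
    intro z
    rw [key z, ha, LinearIsometryEquiv.trans_apply, rotation_apply]
    simp

theorem direct_or_not (g : ℂ ≃ᵢ ℂ) :
    (∃ a b : ℂ, a ≠ 0 ∧ ∀ z, g z = a * z + b) ∨ (∃ a b : ℂ, a ≠ 0 ∧ ∀ z, g z = a * conj z + b) := by
  obtain ⟨a, b, ha, h | h⟩ := complex_isometry g
  · exact Or.inl ⟨a, b, by intro h0; rw [h0, norm_zero] at ha; exact zero_ne_one ha, h⟩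
  · exact Or.inr ⟨a, b, by intro h0; rw [h0, norm_zero] at ha; exact zero_ne_one ha, h⟩

/-- the conjugate of a direct isometry is direct -/
theorem conj_direct (g h : ℂ ≃ᵢ ℂ) {α β : ℂ} (hh : ∀ z, h z = α * z + β) :
    ∃ α' β' : ℂ, ∀ z, (g * h * g⁻¹) z = α' * z + β' := by
  have key : ∀ z, (g * h * g⁻¹) z = g (h (g.symm z)) := fun z => rfl
  rcases direct_or_not g with ⟨a, b, ha, hg⟩ | ⟨a, b, ha, hg⟩
  · refine ⟨α, a * β + b - α * b, fun z => ?_⟩
    have h1 : a * g.symm z + b = z := by rw [← hg, IsometryEquiv.apply_symm_apply]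
    rw [key, hg, hh]
    linear_combination α * h1
  · refine ⟨conj α, a * conj β + b - conj α * b, fun z => ?_⟩
    have h1 : a * conj (g.symm z) + b = z := by rw [← hg, IsometryEquiv.apply_symm_apply]
    rw [key, hg, hh, map_add, map_mul]
    linear_combination conj α * h1

theorem orbit_bounded_complex (G : Subgroup (ℂ ≃ᵢ ℂ))
    (hG : ∀ g ∈ G, ∀ w : ℂ, (∀ z, g z = z + w) → w = 0) :
    ∃ C : ℝ, ∀ g ∈ G, ‖g 0‖ ≤ C := by
  by_cases hcase : ∃ h ∈ G, ∃ α β : ℂ, α ≠ 1 ∧ ∀ z, h z = α * z + β
  · obtain ⟨h, hh, α, β, hα, hhz⟩ := hcase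
    have hα' : 1 - α ≠ 0 := sub_ne_zero.2 (Ne.symm hα)
    obtain ⟨c, hcβ⟩ : ∃ c : ℂ, β = c * (1 - α) := ⟨β / (1 - α), by field_simp⟩
    have hfix : ∀ z, h z = z → z = c := by
      intro z hz
      rw [hhz] at hz
      have : (1 - α) * z = (1 - α) * c := by linear_combination -hz + hcβ
      exact mul_left_cancel₀ hα' this
    have hcfix : h c = c := by rw [hhz, hcβ]; ring
    have hgc : ∀ g ∈ G, g c = c := by
      intro g hg
      have hmem : g * h * g⁻¹ ∈ G := G.mul_mem (G.mul_mem hg hh) (G.inv_mem hg)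
      obtain ⟨α', β', hh'⟩ := conj_direct g h hhz
      set h' := g * h * g⁻¹ with hh'def
      -- the commutator is a translation
      have hcomm : α * β' + β - α' * β - β' = 0 := by
        apply hG ((h * h') * (h' * h)⁻¹) (G.mul_mem (G.mul_mem hh hmem)
          (G.inv_mem (G.mul_mem hmem hh)))
        intro z
        obtain ⟨y, rfl⟩ := (h' * h).surjective z
        have h1 : ((h * h') * (h' * h)⁻¹) ((h' * h) y) = h (h' y) := by
          have : ((h * h') * (h' * h)⁻¹) ((h' * h) y)
            = (h * h') ((h' * h).symm ((h' * h) y)) := rfl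
          rw [this, IsometryEquiv.symm_apply_apply]
          rfl
        have h2 : (h' * h) y = h' (h y) := rfl
        rw [h1, h2, hh', hhz, hhz, hh']
        ring
      -- h' fixes c
      have h3 : h' c = c := by
        apply hfix
        rw [hh', hhz]
        rw [hcβ] at hcomm ⊢
        linear_combination hcomm
      have h4 : h (g.symm c) = g.symm c := by
        have h5 : g (h (g.symm c)) = c := h3
        have h6 : g (h (g.symm c)) = g (g.symm c) := by
          rw [h5, IsometryEquiv.apply_symm_apply]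
        exact g.injective h6
      have h7 := hfix _ h4
      have h8 := congrArg g h7
      rw [IsometryEquiv.apply_symm_apply] at h8
      exact h8.symm
    refine ⟨2 * ‖c‖, fun g hg => ?_⟩
    have h1 : dist (g 0) c = ‖c‖ := by
      conv_lhs => rw [← hgc g hg]
      rw [g.dist_eq, dist_zero_left]
    calc ‖g 0‖ = dist (g 0) 0 := (dist_zero_right _).symm
      _ ≤ dist (g 0) c + dist c 0 := dist_triangle _ _ _
      _ = 2 * ‖c‖ := by rw [h1, dist_zero_right]; ring
  · push Not at hcase
    have hdir : ∀ g ∈ G, ∀ a b : ℂ, (∀ z, g z = a * z + b) → ∀ z, g z = z := by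
      intro g hg a b h z
      have ha : a = 1 := by
        by_contra hne
        obtain ⟨z, hz⟩ := hcase g hg a b hne
        exact hz (h z)
      have hb : b = 0 := hG g hg b (fun z => by rw [h, ha, one_mul])
      rw [h, ha, hb, one_mul, add_zero]
    by_cases hop : ∃ g₀ ∈ G, ∃ a b : ℂ, ∀ z, g₀ z = a * conj z + b
    · obtain ⟨g₀, hg₀, a₀, b₀, hg₀z⟩ := hop
      refine ⟨‖g₀.symm 0‖, fun g hg => ?_⟩
      rcases direct_or_not g with ⟨a, b, -, h⟩ | ⟨a, b, -, h⟩
      · rw [hdir g hg a b h 0, norm_zero]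
        exact norm_nonneg _
      · have h1 : ∀ z, (g * g₀) z = (a * conj a₀) * z + (a * conj b₀ + b) := by
          intro z
          have : (g * g₀) z = g (g₀ z) := rfl
          rw [this, h, hg₀z, map_add, map_mul, Complex.conj_conj]
          ring
        have h2 := hdir (g * g₀) (G.mul_mem hg hg₀) _ _ h1 (g₀.symm 0)
        have h3 : (g * g₀) (g₀.symm 0) = g (g₀ (g₀.symm 0)) := rfl
        rw [h3, IsometryEquiv.apply_symm_apply] at h2
        rw [h2]
    · push Not at hop
      refine ⟨0, fun g hg => ?_⟩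
      rcases direct_or_not g with ⟨a, b, -, h⟩ | ⟨a, b, -, h⟩
      · rw [hdir g hg a b h 0, norm_zero]
      · obtain ⟨z, hz⟩ := hop g hg a b
        exact absurd (h z) hz

theorem orbit_bounded (G : Set (Plane ≃ᵢ Plane)) (h1 : ∀ g ∈ G, g.symm ∈ G)
    (h2 : ∀ g ∈ G, ∀ g' ∈ G, g.trans g' ∈ G) (h3 : IsometryEquiv.refl Plane ∈ G)
    (hG : ∀ g ∈ G, ∀ w : Plane, (∀ z, g z = z + w) → w = 0) :
    ∃ C : ℝ, ∀ g ∈ G, ‖g 0‖ ≤ C := by
  let e : ℂ ≃ₗᵢ[ℝ] Plane := Complex.orthonormalBasisOneI.repr
  let G' : Subgroup (ℂ ≃ᵢ ℂ) :=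
    { carrier := {h | (e.symm.toIsometryEquiv.trans h).trans e.toIsometryEquiv ∈ G}
      mul_mem' := by
        intro a b ha hb
        have h := h2 _ hb _ ha
        change (e.symm.toIsometryEquiv.trans (a * b)).trans e.toIsometryEquiv ∈ G
        have heq : (e.symm.toIsometryEquiv.trans (a * b)).trans e.toIsometryEquiv =
            ((e.symm.toIsometryEquiv.trans b).trans e.toIsometryEquiv).trans
              ((e.symm.toIsometryEquiv.trans a).trans e.toIsometryEquiv) := by
          ext1 x
          simp [IsometryEquiv.mul_apply]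
        rw [heq]
        exact h
      one_mem' := by
        change (e.symm.toIsometryEquiv.trans 1).trans e.toIsometryEquiv ∈ G
        have heq : (e.symm.toIsometryEquiv.trans 1).trans e.toIsometryEquiv =
            IsometryEquiv.refl Plane := by
          ext1 x
          simp
          rfl
        rw [heq]
        exact h3
      inv_mem' := by
        intro a ha
        exact h1 _ ha }
  obtain ⟨C, hC⟩ := orbit_bounded_complex G' (by
    intro g hg w hw
    have hg' : (e.symm.toIsometryEquiv.trans g).trans e.toIsometryEquiv ∈ G := hg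
    have := hG _ hg' (e w) (by
      intro z
      have : ((e.symm.toIsometryEquiv.trans g).trans e.toIsometryEquiv) z = e (g (e.symm z)) := rfl
      rw [this, hw, map_add, LinearIsometryEquiv.apply_symm_apply])
    exact (map_eq_zero_iff e e.injective).1 this)
  refine ⟨C, fun g hg => ?_⟩
  have hmem : (e.toIsometryEquiv.trans g).trans e.symm.toIsometryEquiv ∈ G' := by
    change (e.symm.toIsometryEquiv.trans ((e.toIsometryEquiv.trans g).trans
      e.symm.toIsometryEquiv)).trans e.toIsometryEquiv ∈ G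
    convert hg using 1
    ext1 x
    simp
  have := hC _ hmem
  have h4 : ((e.toIsometryEquiv.trans g).trans e.symm.toIsometryEquiv) 0 = e.symm (g (e 0)) := rfl
  rw [h4, map_zero, LinearIsometryEquiv.norm_map] at this
  exact this

end Pool.Agent.H81.SimTiling
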