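import Mathlib
import Pool.Agent.H81.SimTiling.Sim

set_option autoImplicit false
open Set Topology Filter MeasureTheory

namespace Pool.Agent.H81.SimTiling

theorem IsClosedDisk.isCompact {t : Set Plane} (h : IsClosedDisk t) : IsCompact t := by
  obtain ⟨e⟩ := h
  have : CompactSpace (Metric.closedBall (0 : Plane) 1) :=
    isCompact_iff_compactSpace.mp (isCompact_closedBall _ _)
  have : CompactSpace t := e.symm.compactSpace
  exact isCompact_iff_compactSpace.mpr this

theorem IsTiling.nonempty {T : Set (Set Plane)} (hT : IsTiling T) : T.Nonempty := by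
  have h : (0 : Plane) ∈ ⋃₀ T := by rw [hT.cover]; trivial
  obtain ⟨t, ht, -⟩ := h
  exact ⟨t, ht⟩

theorem Congruent.isCompact {s t : Set Plane} (h : Congruent s t) (hs : IsCompact s) :
    IsCompact t := by
  obtain ⟨g, rfl⟩ := h
  exact hs.image g.continuous

theorem Congruent.symm {s t : Set Plane} (h : Congruent s t) : Congruent t s := by
  obtain ⟨g, rfl⟩ := h
  refine ⟨g.symm, ?_⟩
  rw [image_image]
  simp

theorem Congruent.trans {s t u : Set Plane} (h : Congruent s t) (h' : Congruent t u) :
    Congruent s u := by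
  obtain ⟨g, rfl⟩ := h
  obtain ⟨g', rfl⟩ := h'
  refine ⟨g.trans g', ?_⟩
  rw [image_image]
  rfl

theorem Congruent.interior_nonempty {s t : Set Plane} (h : Congruent s t)
    (hs : (interior s).Nonempty) : (interior t).Nonempty := by
  obtain ⟨g, rfl⟩ := h
  have h2 : g.toHomeomorph '' interior s = interior (g.toHomeomorph '' s) :=
    g.toHomeomorph.image_interior s
  change (interior (g.toHomeomorph '' s)).Nonempty
  rw [← h2]
  exact hs.image _

theorem Admits.isCompact_proto {P : Set Plane} {T : Set (Set Plane)} (h : Admits P T) :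
    IsCompact P := by
  obtain ⟨t, ht⟩ := h.1.nonempty
  exact (h.2 t ht).symm.isCompact (h.1.disk t ht).isCompact

theorem Admits.interior_proto {P : Set Plane} {T : Set (Set Plane)} (h : Admits P T) :
    (interior P).Nonempty := by
  have : Countable T := h.1.countable.to_subtype
  have : Nonempty T := h.1.nonempty.to_subtype
  obtain ⟨⟨t, ht⟩, hi⟩ := nonempty_interior_of_iUnion_of_closed (X := Plane) (ι := T)
    (f := fun t => (t : Set Plane)) (fun t => (h.1.disk t t.2).isCompact.isClosed)
    (by rw [← sUnion_eq_iUnion, h.1.cover])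
  exact (h.2 t ht).symm.interior_nonempty hi

theorem Admits.interior_tile {P : Set Plane} {T : Set (Set Plane)} (h : Admits P T)
    {t : Set Plane} (ht : t ∈ T) : (interior t).Nonempty :=
  (h.2 t ht).interior_nonempty h.interior_proto

theorem IsTiling.eq_of_mem_interior {T : Set (Set Plane)} (h : IsTiling T) {s t : Set Plane}
    (hs : s ∈ T) (ht : t ∈ T) {x : Plane} (hxs : x ∈ interior s) (hxt : x ∈ interior t) :
    s = t := by
  by_contra hne
  exact disjoint_left.1 (h.disjoint s hs t ht hne) hxs hxt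

theorem Congruent.hausdorffMeasure_eq {s t : Set Plane} (h : Congruent s t) (d : ℝ) :
    Measure.hausdorffMeasure d s = Measure.hausdorffMeasure d t := by
  obtain ⟨g, rfl⟩ := h
  exact (g.hausdorffMeasure_image d s).symm

theorem one_lt_ratio {P : Set Plane} {T : Set (Set Plane)} {k : ℕ} (hT : Admits P T)
    (hk : 2 ≤ k) {f : Plane → Plane} {c : ℝ}
    (hd : ∀ x y, dist (f x) (f y) = c * dist x y)
    (hcomp : IsKComposition k (mapTiling f T) T) : 1 < c := by
  by_contra hle
  push Not at hle
  have hlip : LipschitzWith 1 f := by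
    refine LipschitzWith.of_dist_le_mul fun x y => ?_
    rw [hd, NNReal.coe_one]
    exact mul_le_mul_of_nonneg_right hle dist_nonneg
  obtain ⟨t, ht⟩ := hT.1.nonempty
  obtain ⟨S, hST, hSk, hSQ⟩ := hcomp.2.2 _ (mem_mapTiling (f := f) ht)
  have hS1 : 1 < S.card := by omega
  obtain ⟨t₁, ht₁, t₂, ht₂, hne⟩ := Finset.one_lt_card.1 hS1
  have hsub : ∀ s ∈ S, s ⊆ f '' t := by
    intro s hs
    rw [← hSQ]
    exact subset_sUnion_of_mem (Finset.mem_coe.2 hs)
  set μ : Measure Plane := Measure.hausdorffMeasure (Module.finrank ℝ Plane) with hμ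
  have hd0 : (0 : ℝ) ≤ (Module.finrank ℝ Plane : ℝ) := Nat.cast_nonneg _
  have h1 : μ (f '' t) ≤ μ t := by
    have h := hlip.hausdorffMeasure_image_le hd0 t
    rw [ENNReal.coe_one, ENNReal.one_rpow, one_mul] at h
    exact h
  have h2 : μ t = μ t₁ :=
    ((hT.2 t ht).symm.trans (hT.2 t₁ (hST ht₁))).hausdorffMeasure_eq _
  -- interior t₂ \ t₁ is open nonempty
  have hcl : IsClosed t₁ := (hT.1.disk t₁ (hST ht₁)).isCompact.isClosed
  have hopen : IsOpen (interior t₂ \ t₁) := isOpen_interior.sdiff hcl
  have hnon : (interior t₂ \ t₁).Nonempty := by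
    by_contra hcon
    rw [not_nonempty_iff_eq_empty, sdiff_eq_empty] at hcon
    have h3 : interior t₂ ⊆ interior t₁ := interior_maximal hcon isOpen_interior
    obtain ⟨x, hx⟩ := hT.interior_tile (hST ht₂)
    exact disjoint_left.1 (hT.1.disjoint t₁ (hST ht₁) t₂ (hST ht₂) hne) (h3 hx) hx
  have hpos : 0 < μ (interior t₂ \ t₁) := hopen.measure_pos μ hnon
  have hfin : μ t₁ ≠ ⊤ := (hT.1.disk t₁ (hST ht₁)).isCompact.measure_lt_top.ne
  have h4 : μ t₁ + μ (interior t₂ \ t₁) ≤ μ (f '' t) := by
    rw [← measure_union disjoint_sdiff_right hopen.measurableSet]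
    refine measure_mono (union_subset (hsub _ ht₁) ?_)
    exact (sdiff_subset.trans interior_subset).trans (hsub _ ht₂)
  have h5 : μ t₁ < μ t₁ + μ (interior t₂ \ t₁) := ENNReal.lt_add_right hfin hpos.ne'
  have h6 : μ t₁ < μ t₁ := h5.trans_le (h4.trans (h1.trans h2.le))
  exact lt_irrefl _ h6

end Pool.Agent.H81.SimTiling
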