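import Mathlib
import Pool.Agent.H81.SimTiling.Tile

set_option autoImplicit false
open Set Topology Filter

namespace Pool.Agent.H81.SimTiling

theorem exists_tendsto_of_compact {ι Y : Type*} [TopologicalSpace Y] (𝒰 : Ultrafilter ι)
    {K : Set Y} (hK : IsCompact K) {f : ι → Y} (hf : ∀ᶠ i in (𝒰 : Filter ι), f i ∈ K) :
    ∃ y ∈ K, Tendsto f 𝒰 (𝓝 y) := by
  have h := hK.ultrafilter_le_nhds (𝒰.map f) (by
    rw [le_principal_iff]
    exact hf)
  obtain ⟨y, hy, hle⟩ := h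
  exact ⟨y, hy, hle⟩

/-- openness of `y ∈ interior (act m '' P)` in `m` -/
theorem mem_interior_nhds {P : Set Plane} {m : Mo} (hm : m ∈ Iso) {y : Plane}
    (hy : y ∈ interior (act m '' P)) :
    ∀ᶠ m' in 𝓝 m, m' ∈ Iso → y ∈ interior (act m' '' P) := by
  have himg : ∀ m' (hm' : m' ∈ Iso), act m' '' interior P = interior (act m' '' P) := by
    intro m' hm'
    exact (toIso m' hm').toHomeomorph.image_interior P
  rw [← himg m hm] at hy
  obtain ⟨x, hx, rfl⟩ := hy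
  obtain ⟨ρ, hρ, hball⟩ := Metric.isOpen_iff.1 isOpen_interior x hx
  have hcont : Continuous (fun m' : Mo => act m' x) := by unfold act; fun_prop
  have hnear : ∀ᶠ m' in 𝓝 m, dist (act m' x) (act m x) < ρ :=
    hcont.continuousAt.eventually (Metric.ball_mem_nhds _ hρ)
  filter_upwards [hnear] with m' h1 hm'
  rw [← himg m' hm']
  refine ⟨(toIso m' hm').symm (act m x), hball ?_, ?_⟩
  · rw [Metric.mem_ball, ← dist_act hm', ← toIso_apply m' hm' ((toIso m' hm').symm _),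
      IsometryEquiv.apply_symm_apply, dist_comm]
    exact h1
  · rw [← toIso_apply m' hm', IsometryEquiv.apply_symm_apply]

theorem subset_of_tendsto {ι : Type*} {𝒰 : Ultrafilter ι} {P : Set Plane} (hP : IsCompact P)
    {k : ℕ} {u : ι → Mo} {u₀ : Mo} (hu : Tendsto u 𝒰 (𝓝 u₀)) {v : ι → Fin k → Mo}
    {v₀ : Fin k → Mo} (hv : ∀ j, Tendsto (fun i => v i j) 𝒰 (𝓝 (v₀ j)))
    (h : ∀ᶠ i in (𝒰 : Filter ι), act (u i) '' P ⊆ ⋃ j, act (v i j) '' P) :
    act u₀ '' P ⊆ ⋃ j, act (v₀ j) '' P := by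
  rintro _ ⟨x, hx, rfl⟩
  have h1 : ∀ᶠ i in (𝒰 : Filter ι), ∃ j, ∃ z ∈ P, act (v i j) z = act (u i) x := by
    filter_upwards [h] with i hi
    have := hi (mem_image_of_mem _ hx)
    obtain ⟨j, z, hz, hze⟩ := mem_iUnion.1 this
    exact ⟨j, z, hz, hze⟩
  have h2 : ∃ j, ∀ᶠ i in (𝒰 : Filter ι), ∃ z ∈ P, act (v i j) z = act (u i) x := by
    by_contra hcon
    push Not at hcon
    have h3 : ∀ j, ∀ᶠ i in (𝒰 : Filter ι), ¬ ∃ z ∈ P, act (v i j) z = act (u i) x := by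
      intro j
      exact (hcon j).mono fun i hi hz => by
        obtain ⟨z, hz, hze⟩ := hz
        exact hi z hz hze
    have h4 := (eventually_all.2 h3).and h1
    obtain ⟨i, hi, hi'⟩ := h4.exists
    obtain ⟨j, hj⟩ := hi'
    exact hi j hj
  obtain ⟨j, hj⟩ := h2
  classical
  let z : ι → Plane := fun i => if hi : ∃ z ∈ P, act (v i j) z = act (u i) x then hi.choose else 0
  have hz : ∀ᶠ i in (𝒰 : Filter ι), z i ∈ P ∧ act (v i j) (z i) = act (u i) x := by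
    filter_upwards [hj] with i hi
    have : z i = hi.choose := dif_pos hi
    rw [this]
    exact hi.choose_spec
  obtain ⟨z₀, hz₀, hzt⟩ := exists_tendsto_of_compact 𝒰 hP (hz.mono fun i hi => hi.1)
  have h5 : Tendsto (fun i => act (v i j) (z i)) 𝒰 (𝓝 (act (v₀ j) z₀)) :=
    tendsto_act (hv j) hzt
  have h6 : Tendsto (fun i => act (u i) x) 𝒰 (𝓝 (act u₀ x)) :=
    tendsto_act hu tendsto_const_nhds
  have h7 : act (v₀ j) z₀ = act u₀ x :=
    tendsto_nhds_unique (h5.congr' (hz.mono fun i hi => hi.2)) h6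
  exact mem_iUnion.2 ⟨j, z₀, hz₀, h7⟩

theorem subset_of_tendsto_one {ι : Type*} {𝒰 : Ultrafilter ι} {P : Set Plane} (hP : IsCompact P)
    {u v : ι → Mo} {u₀ v₀ : Mo} (hu : Tendsto u 𝒰 (𝓝 u₀)) (hv : Tendsto v 𝒰 (𝓝 v₀))
    (h : ∀ᶠ i in (𝒰 : Filter ι), act (u i) '' P ⊆ act (v i) '' P) :
    act u₀ '' P ⊆ act v₀ '' P := by
  have h1 := subset_of_tendsto (k := 1) hP hu (v := fun i _ => v i) (v₀ := fun _ => v₀)
    (fun _ => hv) (by simpa only [iUnion_const] using h)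
  simpa only [iUnion_const] using h1

theorem eq_of_tendsto_one {ι : Type*} {𝒰 : Ultrafilter ι} {P : Set Plane} (hP : IsCompact P)
    {u v : ι → Mo} {u₀ v₀ : Mo} (hu : Tendsto u 𝒰 (𝓝 u₀)) (hv : Tendsto v 𝒰 (𝓝 v₀))
    (h : ∀ᶠ i in (𝒰 : Filter ι), act (u i) '' P = act (v i) '' P) :
    act u₀ '' P = act v₀ '' P :=
  Subset.antisymm (subset_of_tendsto_one hP hu hv (h.mono fun _ hi => hi.subset))
    (subset_of_tendsto_one hP hv hu (h.mono fun _ hi => hi.symm.subset))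

/-- the space of tilings admitted by `P` -/
def TilSpace (P : Set Plane) : Type := {T : Set (Set Plane) // Admits P T}

/-- placements of `P` in the tiling -/
def Pl {P : Set Plane} (T : TilSpace P) : Set Mo := {m | m ∈ Iso ∧ act m '' P ∈ T.1}

instance (P : Set Plane) : TopologicalSpace (TilSpace P) :=
  TopologicalSpace.generateFrom
    ({A | ∃ U : Set Mo, IsOpen U ∧ A = {T | (U ∩ Pl T).Nonempty}} ∪
     {A | ∃ K : Set Mo, IsCompact K ∧ A = {T | K ∩ Pl T = ∅}})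

variable {P : Set Plane}

theorem isOpen_hit {U : Set Mo} (hU : IsOpen U) : IsOpen {T : TilSpace P | (U ∩ Pl T).Nonempty} :=
  TopologicalSpace.isOpen_generateFrom_of_mem (Or.inl ⟨U, hU, rfl⟩)

theorem isOpen_miss {K : Set Mo} (hK : IsCompact K) : IsOpen {T : TilSpace P | K ∩ Pl T = ∅} :=
  TopologicalSpace.isOpen_generateFrom_of_mem (Or.inr ⟨K, hK, rfl⟩)

theorem ultra_le_nhds_of {𝒰 : Ultrafilter (TilSpace P)} {T₀ : TilSpace P}
    (h1 : ∀ U : Set Mo, IsOpen U → (U ∩ Pl T₀).Nonempty →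
      ∀ᶠ T in (𝒰 : Filter (TilSpace P)), (U ∩ Pl T).Nonempty)
    (h2 : ∀ K : Set Mo, IsCompact K → K ∩ Pl T₀ = ∅ →
      ∀ᶠ T in (𝒰 : Filter (TilSpace P)), K ∩ Pl T = ∅) : (𝒰 : Filter (TilSpace P)) ≤ 𝓝 T₀ := by
  rw [TopologicalSpace.nhds_generateFrom]
  refine le_iInf₂ fun s hs => ?_
  rw [le_principal_iff]
  obtain ⟨hmem, hs | hs⟩ := hs
  · obtain ⟨U, hU, rfl⟩ := hs
    exact h1 U hU hmem
  · obtain ⟨K, hK, rfl⟩ := hs
    exact h2 K hK hmem

theorem isClosed_Pl (T : TilSpace P) : IsClosed (Pl T) := by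
  have hPc := T.2.isCompact_proto
  rw [isClosed_iff_ultrafilter]
  intro m u hu hmem
  have hiso : m ∈ Iso := by
    refine isClosed_iff_ultrafilter.1 isClosed_Iso m u hu ?_
    exact mem_of_superset hmem fun m' hm' => hm'.1
  have hint : (interior (act m '' P)).Nonempty := by
    have : Congruent P (act m '' P) := (congruent_iff _ _).2 ⟨m, hiso, rfl⟩
    exact this.interior_nonempty T.2.interior_proto
  obtain ⟨y, hy⟩ := hint
  have h1 : ∀ᶠ m' in (u : Filter Mo), m' ∈ Iso → y ∈ interior (act m' '' P) :=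
    hu (mem_interior_nhds hiso hy)
  have h2 : ∀ᶠ m' in (u : Filter Mo), m' ∈ Pl T := hmem
  have h3 := h1.and h2
  obtain ⟨m₁, hm₁, hm₁'⟩ := h3.exists
  have h4 : ∀ᶠ m' in (u : Filter Mo), act (id m') '' P = act ((fun _ => m₁) m') '' P := by
    filter_upwards [h3] with m' hm'
    exact T.2.1.eq_of_mem_interior hm'.2.2 hm₁'.2 (hm'.1 hm'.2.1) (hm₁ hm₁'.1)
  have h5 : act m '' P = act m₁ '' P :=
    eq_of_tendsto_one hPc (show Tendsto id (u : Filter Mo) (𝓝 m) from hu) tendsto_const_nhds h4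
  refine ⟨hiso, ?_⟩
  rw [h5]
  exact hm₁'.2

theorem exists_mem_Pl (T : TilSpace P) {t : Set Plane} (ht : t ∈ T.1) :
    ∃ m ∈ Pl T, act m '' P = t := by
  obtain ⟨m, hm, hmt⟩ := (congruent_iff _ _).1 (T.2.2 t ht)
  exact ⟨m, ⟨hm, by rw [hmt]; exact ht⟩, hmt⟩

theorem Pl_nonempty (T : TilSpace P) : (Pl T).Nonempty := by
  obtain ⟨t, ht⟩ := T.2.1.nonempty
  obtain ⟨m, hm, -⟩ := exists_mem_Pl T ht
  exact ⟨m, hm⟩

theorem eq_of_Pl_eq {T T' : TilSpace P} (h : Pl T = Pl T') : T = T' := by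
  apply Subtype.ext
  ext t
  constructor
  · intro ht
    obtain ⟨m, hm, rfl⟩ := exists_mem_Pl T ht
    rw [h] at hm
    exact hm.2
  · intro ht
    obtain ⟨m, hm, rfl⟩ := exists_mem_Pl T' ht
    rw [← h] at hm
    exact hm.2

theorem isCompact_bounded_Iso (R : ℝ) : IsCompact {m : Mo | m ∈ Iso ∧ ‖m.2‖ ≤ R} := by
  refine Metric.isCompact_of_isClosed_isBounded ?_ ?_
  · exact isClosed_Iso.inter (isClosed_le (continuous_snd.norm) continuous_const)
  · refine (Metric.isBounded_closedBall (x := (0 : Mo)) (r := max 1 R)).subset ?_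
    rintro m ⟨hm, hR⟩
    rw [mem_closedBall_zero_iff, Prod.norm_def]
    exact max_le_max (norm_fst_le_of_Iso hm) hR

theorem norm_snd_le {m : Mo} (hm : m ∈ Iso) {R : ℝ} (hPR : ∀ p ∈ P, ‖p‖ ≤ R) {x : Plane}
    (hx : x ∈ act m '' P) : ‖m.2‖ ≤ ‖x‖ + R := by
  obtain ⟨p, hp, rfl⟩ := hx
  have h1 : m.2 = act m p - m.1 p := by simp [act]
  calc ‖m.2‖ = ‖act m p - m.1 p‖ := by rw [← h1]
    _ ≤ ‖act m p‖ + ‖m.1 p‖ := norm_sub_le _ _
    _ ≤ ‖act m p‖ + R := by rw [hm p]; linarith [hPR p hp]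

/-- the limit of placements along an ultrafilter -/
def Lam (𝒰 : Ultrafilter (TilSpace P)) : Set Mo :=
  {m | ∃ f : TilSpace P → Mo, (∀ᶠ T in (𝒰 : Filter (TilSpace P)), f T ∈ Pl T) ∧
    Tendsto f 𝒰 (𝓝 m)}

theorem Lam_subset_Iso (𝒰 : Ultrafilter (TilSpace P)) {m : Mo} (hm : m ∈ Lam 𝒰) : m ∈ Iso := by
  obtain ⟨f, hf, hlim⟩ := hm
  exact isClosed_Iso.mem_of_tendsto hlim (hf.mono fun T hT => hT.1)

theorem act_injective {m m' : Mo} (h : ∀ x, act m x = act m' x) : m = m' := by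
  have h0 : m.2 = m'.2 := by simpa [act] using h 0
  refine Prod.ext ?_ h0
  ext1 x
  have := h x
  unfold act at this
  rw [h0] at this
  exact add_right_cancel this

theorem exists_comp_eq {m₁ m : Mo} (hm₁ : m₁ ∈ Iso) (hm : m ∈ Iso) :
    ∃ q ∈ Iso, comp m₁ q = m := by
  obtain ⟨q, hq, hq'⟩ := exists_act_of_isometryEquiv ((toIso m hm).trans (toIso m₁ hm₁).symm)
  refine ⟨q, hq, act_injective fun x => ?_⟩
  rw [act_comp, ← hq', ← toIso_apply m₁ hm₁, IsometryEquiv.trans_apply,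
    IsometryEquiv.apply_symm_apply]
  rfl

theorem comp_mem_Iso {m q : Mo} (hm : m ∈ Iso) (hq : q ∈ Iso) : comp m q ∈ Iso := by
  intro x
  change ‖m.1 (q.1 x)‖ = ‖x‖
  rw [hm, hq]

theorem admits_limit (𝒰 : Ultrafilter (TilSpace P)) :
    Admits P {t | ∃ m ∈ Lam 𝒰, act m '' P = t} := by
  classical
  obtain ⟨T₁⟩ : Nonempty (TilSpace P) := 𝒰.neBot.nonempty
  have hPc := T₁.2.isCompact_proto
  have hPi := T₁.2.interior_proto
  have hcong : ∀ t ∈ {t | ∃ m ∈ Lam 𝒰, act m '' P = t}, Congruent P t := by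
    rintro t ⟨m, hm, rfl⟩
    exact (congruent_iff _ _).2 ⟨m, Lam_subset_Iso 𝒰 hm, rfl⟩
  have hdisj : ∀ s ∈ {t | ∃ m ∈ Lam 𝒰, act m '' P = t}, ∀ t ∈ {t | ∃ m ∈ Lam 𝒰, act m '' P = t},
      s ≠ t → Disjoint (interior s) (interior t) := by
    rintro _ ⟨m, hm, rfl⟩ _ ⟨m', hm', rfl⟩ hne
    rw [disjoint_left]
    intro y hy hy'
    apply hne
    have e1 := mem_interior_nhds (Lam_subset_Iso 𝒰 hm) hy
    have e2 := mem_interior_nhds (Lam_subset_Iso 𝒰 hm') hy'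
    obtain ⟨f, hf, hflim⟩ := hm
    obtain ⟨f', hf', hflim'⟩ := hm'
    refine eq_of_tendsto_one hPc hflim hflim' ?_
    filter_upwards [hf, hf', hflim.eventually e1, hflim'.eventually e2] with T h1 h2 h3 h4
    exact T.2.1.eq_of_mem_interior h1.2 h2.2 (h3 h1.1) (h4 h2.1)
  refine ⟨⟨?_, ?_, ?_, hdisj⟩, hcong⟩
  · refine Set.PairwiseDisjoint.countable_of_nonempty_interior (s := fun t => interior t) ?_ ?_
    · intro s hs t ht hne
      exact hdisj s hs t ht hne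
    · intro t ht
      rw [interior_interior]
      exact (hcong t ht).interior_nonempty hPi
  · intro t ht
    obtain ⟨t₁, ht₁⟩ := T₁.2.1.nonempty
    obtain ⟨g, hg⟩ := (T₁.2.2 t₁ ht₁).symm.trans (hcong t ht)
    rw [← hg]
    exact isClosedDisk_image g.toHomeomorph (T₁.2.1.disk t₁ ht₁)
  · rw [eq_univ_iff_forall]
    intro x
    obtain ⟨R, hR⟩ : ∃ R : ℝ, ∀ p ∈ P, ‖p‖ ≤ R := hPc.isBounded.exists_norm_le
    have hex : ∀ T : TilSpace P, ∃ m ∈ Pl T, x ∈ act m '' P := by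
      intro T
      have hx : x ∈ ⋃₀ T.1 := by rw [T.2.1.cover]; trivial
      obtain ⟨t, ht, hxt⟩ := hx
      obtain ⟨m, hm, rfl⟩ := exists_mem_Pl T ht
      exact ⟨m, hm, hxt⟩
    choose f hf hfx using hex
    choose z hz hzx using hfx
    obtain ⟨m, -, hm⟩ := exists_tendsto_of_compact 𝒰 (isCompact_bounded_Iso (‖x‖ + R)) (f := f)
      (Eventually.of_forall fun T => ⟨(hf T).1, norm_snd_le (hf T).1 hR ⟨z T, hz T, hzx T⟩⟩)
    obtain ⟨z₀, hz₀, hzl⟩ := exists_tendsto_of_compact 𝒰 hPc (f := z)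
      (Eventually.of_forall hz)
    have h5 : Tendsto (fun T => act (f T) (z T)) 𝒰 (𝓝 (act m z₀)) := tendsto_act hm hzl
    have h5' : Tendsto (fun T => act (f T) (z T)) 𝒰 (𝓝 x) := by
      have : (fun T => act (f T) (z T)) = fun _ => x := funext hzx
      rw [this]
      exact tendsto_const_nhds
    have h6 : act m z₀ = x := tendsto_nhds_unique h5 h5'
    refine ⟨act m '' P, ⟨m, ⟨f, Eventually.of_forall hf, hm⟩, rfl⟩, z₀, hz₀, h6⟩

instance : CompactSpace (TilSpace P) := by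
  classical
  refine ⟨isCompact_iff_ultrafilter_le_nhds.2 fun 𝒰 _ => ?_⟩
  refine ⟨⟨_, admits_limit 𝒰⟩, mem_univ _, ultra_le_nhds_of ?_ ?_⟩
  · rintro U hU ⟨m, hmU, hmI, m₁, hm₁, hm₁e⟩
    have hm₁I := Lam_subset_Iso 𝒰 hm₁
    obtain ⟨f, hf, hflim⟩ := hm₁
    obtain ⟨q, hq, hqe⟩ := exists_comp_eq hm₁I hmI
    have hqP : act q '' P = P := by
      have h1 : act m₁ '' (act q '' P) = act m₁ '' P := by
        rw [hm₁e, image_image, ← hqe]
        exact image_congr fun x _ => (act_comp m₁ q x).symm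
      exact ((toIso m₁ hm₁I).injective.image_injective) h1
    have hlim2 : Tendsto (fun T => comp (f T) q) 𝒰 (𝓝 m) := by
      rw [← hqe]
      exact tendsto_comp hflim tendsto_const_nhds
    filter_upwards [hlim2.eventually (hU.mem_nhds hmU), hf] with T h1 h2
    refine ⟨comp (f T) q, h1, comp_mem_Iso h2.1 hq, ?_⟩
    have h3 : act (comp (f T) q) '' P = act (f T) '' P := by
      conv_rhs => rw [← hqP, image_image]
      exact image_congr fun x _ => act_comp _ _ x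
    rw [h3]
    exact h2.2
  · intro K hK hKe
    by_contra hcon
    rw [← Ultrafilter.eventually_not] at hcon
    have hex : ∀ᶠ T in (𝒰 : Filter (TilSpace P)), ∃ m, m ∈ K ∩ Pl T := by
      filter_upwards [hcon] with T hT
      exact nonempty_iff_ne_empty.2 hT
    let f : TilSpace P → Mo := fun T => if h : ∃ m, m ∈ K ∩ Pl T then h.choose else 0
    have hf : ∀ᶠ T in (𝒰 : Filter (TilSpace P)), f T ∈ K ∩ Pl T := by
      filter_upwards [hex] with T hT
      have : f T = hT.choose := dif_pos hT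
      rw [this]
      exact hT.choose_spec
    obtain ⟨m, hmK, hm⟩ := exists_tendsto_of_compact 𝒰 hK (hf.mono fun T hT => hT.1)
    have hmL : m ∈ Lam 𝒰 := ⟨f, hf.mono fun T hT => hT.2, hm⟩
    have : m ∈ K ∩ Pl (⟨_, admits_limit 𝒰⟩ : TilSpace P) :=
      ⟨hmK, Lam_subset_Iso 𝒰 hmL, m, hmL, rfl⟩
    rw [hKe] at this
    exact this

theorem Pl_eq_Lam {𝒰 : Ultrafilter (TilSpace P)} {T₀ : TilSpace P}
    (h : (𝒰 : Filter (TilSpace P)) ≤ 𝓝 T₀) : Pl T₀ = Lam 𝒰 := by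
  apply Subset.antisymm
  · intro m hm
    have hnear : ∀ T : TilSpace P, ∃ y ∈ Pl T, Metric.infDist m (Pl T) = dist m y := fun T =>
      (isClosed_Pl T).exists_infDist_eq_dist (Pl_nonempty T) m
    choose f hf hfd using hnear
    refine ⟨f, Eventually.of_forall hf, ?_⟩
    rw [Metric.tendsto_nhds]
    intro ε hε
    have h1 : ∀ᶠ T in (𝒰 : Filter (TilSpace P)), (Metric.ball m ε ∩ Pl T).Nonempty :=
      h ((isOpen_hit Metric.isOpen_ball).mem_nhds ⟨m, Metric.mem_ball_self hε, hm⟩)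
    filter_upwards [h1] with T hT
    obtain ⟨y, hy, hyT⟩ := hT
    rw [dist_comm, ← hfd]
    refine (Metric.infDist_le_dist_of_mem hyT).trans_lt ?_
    rw [dist_comm]
    exact hy
  · rintro m ⟨f, hf, hlim⟩
    by_contra hm
    obtain ⟨ε, hε, hball⟩ := Metric.isOpen_iff.1 (isClosed_Pl T₀).isOpen_compl m hm
    have h1 : ∀ᶠ T in (𝒰 : Filter (TilSpace P)), Metric.closedBall m (ε / 2) ∩ Pl T = ∅ := by
      refine h ((isOpen_miss (isCompact_closedBall m (ε / 2))).mem_nhds ?_)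
      change Metric.closedBall m (ε / 2) ∩ Pl T₀ = ∅
      rw [eq_empty_iff_forall_notMem]
      rintro y ⟨hy, hyT⟩
      exact hball (Metric.closedBall_subset_ball (by linarith) hy) hyT
    have h2 : ∀ᶠ T in (𝒰 : Filter (TilSpace P)), f T ∈ Metric.closedBall m (ε / 2) :=
      hlim.eventually (Metric.closedBall_mem_nhds m (by linarith))
    obtain ⟨T, h3, h4, h5⟩ := (h1.and (h2.and hf)).exists
    have : f T ∈ Metric.closedBall m (ε / 2) ∩ Pl T := ⟨h4, h5⟩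
    rw [h3] at this
    exact this

instance : T2Space (TilSpace P) := by
  rw [t2_iff_ultrafilter]
  intro x y f hx hy
  apply eq_of_Pl_eq
  rw [Pl_eq_Lam hx, Pl_eq_Lam hy]

end Pool.Agent.H81.SimTiling
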