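import Mathlib
import Pool.Agent.H81.SimTiling.Space

set_option autoImplicit false
open Set Topology Filter

namespace Pool.Agent.H81.SimTiling

variable {P : Set Plane}

/-! ### translations -/

theorem admits_mapTiling_iso (g : Plane ≃ᵢ Plane) {T : Set (Set Plane)} (hT : Admits P T) :
    Admits P (mapTiling g T) := by
  refine ⟨isTiling_mapTiling (isSimilarity_isometryEquiv g) hT.1, ?_⟩
  rintro _ ⟨t, ht, rfl⟩
  exact (hT.2 t ht).trans ⟨g, rfl⟩

/-- translation of a tiling -/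
def shift (v : Plane) (T : TilSpace P) : TilSpace P :=
  ⟨mapTiling (fun x => x + v) T.1, admits_mapTiling_iso (IsometryEquiv.addRight v) T.2⟩

theorem shift_val (v : Plane) (T : TilSpace P) :
    (shift v T).1 = mapTiling (fun x => x + v) T.1 := rfl

theorem shift_zero (T : TilSpace P) : shift 0 T = T := by
  apply Subtype.ext
  exact mapTiling_id_of (fun x => add_zero x) _

theorem shift_add (v w : Plane) (T : TilSpace P) : shift (v + w) T = shift v (shift w T) := by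
  apply Subtype.ext
  rw [shift_val, shift_val, shift_val, mapTiling_comp]
  congr 1
  funext x
  simp only [Function.comp_apply]
  abel

theorem mem_Pl_shift (v : Plane) (T : TilSpace P) (m : Mo) :
    m ∈ Pl (shift v T) ↔ (m.1, m.2 - v) ∈ Pl T := by
  have himg : act m '' P = (fun x => x + v) '' (act (m.1, m.2 - v) '' P) := by
    rw [image_image]
    refine image_congr fun x _ => ?_
    simp only [act]
    abel
  have hinj : Function.Injective (fun t : Set Plane => (fun x => x + v) '' t) :=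
    (add_left_injective v).image_injective
  constructor
  · rintro ⟨hm, hmT⟩
    refine ⟨hm, ?_⟩
    rw [himg, shift_val] at hmT
    obtain ⟨t, ht, hte⟩ := hmT
    have := hinj hte
    rw [← this]
    exact ht
  · rintro ⟨hm, hmT⟩
    refine ⟨hm, ?_⟩
    rw [himg, shift_val]
    exact mem_mapTiling hmT

theorem continuous_shift (v : Plane) : Continuous (shift v : TilSpace P → TilSpace P) := by
  have hc : Continuous (fun m : Mo => ((m.1, m.2 + v) : Mo)) := by fun_prop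
  have hc' : Continuous (fun m : Mo => ((m.1, m.2 - v) : Mo)) := by fun_prop
  refine continuous_generateFrom_iff.2 ?_
  rintro s (⟨U, hU, rfl⟩ | ⟨K, hK, rfl⟩)
  · have : shift v ⁻¹' {T : TilSpace P | (U ∩ Pl T).Nonempty} =
        {T : TilSpace P | (((fun m : Mo => ((m.1, m.2 + v) : Mo)) ⁻¹' U) ∩ Pl T).Nonempty} := by
      ext T
      constructor
      · rintro ⟨m, hmU, hm⟩
        rw [mem_Pl_shift] at hm
        refine ⟨(m.1, m.2 - v), ?_, hm⟩
        simpa using hmU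
      · rintro ⟨m, hmU, hm⟩
        refine ⟨(m.1, m.2 + v), hmU, ?_⟩
        rw [mem_Pl_shift]
        simpa using hm
    rw [this]
    exact isOpen_hit (hU.preimage hc)
  · have : shift v ⁻¹' {T : TilSpace P | K ∩ Pl T = ∅} =
        {T : TilSpace P | ((fun m : Mo => ((m.1, m.2 - v) : Mo)) '' K) ∩ Pl T = ∅} := by
      ext T
      simp only [mem_preimage, mem_ofPred_eq, eq_empty_iff_forall_notMem]
      constructor
      · rintro h _ ⟨⟨m, hmK, rfl⟩, hm⟩
        exact h m ⟨hmK, (mem_Pl_shift v T m).2 hm⟩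
      · rintro h m ⟨hmK, hm⟩
        exact h _ ⟨⟨m, hmK, rfl⟩, (mem_Pl_shift v T m).1 hm⟩
    rw [this]
    exact isOpen_miss (hK.image hc')

/-! ### compositions in terms of placements -/

theorem comp_iff (T : TilSpace P) (k : ℕ) (Q : Set Plane) :
    (∃ S : Finset (Set Plane), (S : Set (Set Plane)) ⊆ T.1 ∧ S.card = k ∧
      ⋃₀ (S : Set (Set Plane)) = Q) ↔
    ∃ v : Fin k → Mo, (∀ j, v j ∈ Pl T) ∧ (∀ i j, act (v i) '' P = act (v j) '' P → i = j) ∧
      ⋃ j, act (v j) '' P = Q := by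
  classical
  constructor
  · rintro ⟨S, hS, hk, rfl⟩
    let e := S.equivFinOfCardEq hk
    have hex : ∀ j : Fin k, ∃ m ∈ Pl T, act m '' P = (e.symm j : Set Plane) := fun j =>
      exists_mem_Pl T (hS (e.symm j).2)
    choose v hv hve using hex
    refine ⟨v, hv, ?_, ?_⟩
    · intro i j hij
      rw [hve, hve] at hij
      exact e.symm.injective (Subtype.ext hij)
    · ext x
      simp only [mem_iUnion, hve, mem_sUnion, Finset.mem_coe]
      constructor
      · rintro ⟨j, hj⟩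
        exact ⟨_, (e.symm j).2, hj⟩
      · rintro ⟨t, ht, hx⟩
        refine ⟨e ⟨t, ht⟩, ?_⟩
        rw [Equiv.symm_apply_apply]
        exact hx
  · rintro ⟨v, hv, hinj, rfl⟩
    refine ⟨Finset.univ.image (fun j => act (v j) '' P), ?_, ?_, ?_⟩
    · rw [Finset.coe_image]
      rintro _ ⟨j, -, rfl⟩
      exact (hv j).2
    · rw [Finset.card_image_of_injective _ (fun i j hij => hinj i j hij), Finset.card_univ,
        Fintype.card_fin]
    · ext x
      simp

/-- a compact family of similarities -/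
def SigmaN (n : ℕ) : Set Mo :=
  {s | SimM s ∧ 1 + 1 / ((n : ℝ) + 1) ≤ ‖s.1‖ ∧ ‖s.1‖ ≤ n + 2 ∧ ‖s.2‖ ≤ n}

theorem isCompact_SigmaN (n : ℕ) : IsCompact (SigmaN n) := by
  refine Metric.isCompact_of_isClosed_isBounded ?_ ?_
  · have h1 : IsClosed {s : Mo | SimM s} := by
      unfold SimM
      rw [Set.ofPred_forall]
      refine isClosed_iInter fun x => ?_
      refine isClosed_eq ?_ ?_ <;> fun_prop
    have h2 : IsClosed {s : Mo | 1 + 1 / ((n : ℝ) + 1) ≤ ‖s.1‖} :=
      isClosed_le continuous_const continuous_fst.norm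
    have h3 : IsClosed {s : Mo | ‖s.1‖ ≤ n + 2} :=
      isClosed_le continuous_fst.norm continuous_const
    have h4 : IsClosed {s : Mo | ‖s.2‖ ≤ n} :=
      isClosed_le continuous_snd.norm continuous_const
    exact h1.inter (h2.inter (h3.inter h4))
  · refine (Metric.isBounded_closedBall (x := (0 : Mo)) (r := (n : ℝ) + 2)).subset ?_
    rintro m ⟨-, -, h3, h4⟩
    rw [mem_closedBall_zero_iff, Prod.norm_def]
    exact max_le h3 (by linarith)

theorem SigmaN_pos {n : ℕ} {s : Mo} (hs : s ∈ SigmaN n) : 0 < ‖s.1‖ := by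
  have : (0 : ℝ) < 1 + 1 / ((n : ℝ) + 1) := by positivity
  exact this.trans_le hs.2.1

theorem SigmaN_isSimilarity {n : ℕ} {s : Mo} (hs : s ∈ SigmaN n) : IsSimilarity (act s) :=
  hs.1.isSimilarity (SigmaN_pos hs)

/-- tilings that have a `k`-composition obtained by a similarity in `SigmaN n` -/
def FF (P : Set Plane) (k n : ℕ) : Set (TilSpace P) :=
  {T | ∃ s ∈ SigmaN n, IsKComposition k (mapTiling (act s) T.1) T.1}

theorem norm_act_le (s : Mo) (x : Plane) : ‖act s x‖ ≤ ‖s.1‖ * ‖x‖ + ‖s.2‖ :=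
  (norm_add_le _ _).trans (by
    have := s.1.le_opNorm x
    linarith)

theorem isClosed_FF (k n : ℕ) : IsClosed (FF P k n) := by
  classical
  rw [isClosed_iff_ultrafilter]
  intro T₀ 𝒰 h𝒰 hF
  have hPc := T₀.2.isCompact_proto
  obtain ⟨R, hR⟩ : ∃ R : ℝ, ∀ p ∈ P, ‖p‖ ≤ R := hPc.isBounded.exists_norm_le
  have hLam := Pl_eq_Lam h𝒰
  have hFev : ∀ᶠ T in (𝒰 : Filter (TilSpace P)),
      ∃ s ∈ SigmaN n, IsKComposition k (mapTiling (act s) T.1) T.1 := hF
  let s : TilSpace P → Mo := fun T =>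
    if h : ∃ s ∈ SigmaN n, IsKComposition k (mapTiling (act s) T.1) T.1 then h.choose else 0
  have hs : ∀ᶠ T in (𝒰 : Filter (TilSpace P)),
      s T ∈ SigmaN n ∧ IsKComposition k (mapTiling (act (s T)) T.1) T.1 := by
    filter_upwards [hFev] with T hT
    have h1 : s T = hT.choose := dif_pos hT
    rw [h1]
    exact hT.choose_spec
  obtain ⟨s₀, hs₀, hslim⟩ := exists_tendsto_of_compact 𝒰 (isCompact_SigmaN n)
    (hs.mono fun T hT => hT.1)
  refine ⟨s₀, hs₀, isTiling_mapTiling (SigmaN_isSimilarity hs₀) T₀.2.1, T₀.2.1, ?_⟩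
  rintro _ ⟨t, ht, rfl⟩
  obtain ⟨m₀, hm₀, rfl⟩ := exists_mem_Pl T₀ ht
  have hm₀' := hm₀
  rw [hLam] at hm₀'
  obtain ⟨m, hm, hmlim⟩ := hm₀'
  refine (comp_iff T₀ k _).2 ?_
  -- choose the pieces
  have hpieces : ∀ᶠ T in (𝒰 : Filter (TilSpace P)), ∃ v : Fin k → Mo, (∀ j, v j ∈ Pl T) ∧
      (∀ i j, act (v i) '' P = act (v j) '' P → i = j) ∧
      ⋃ j, act (v j) '' P = act (comp (s T) (m T)) '' P := by
    filter_upwards [hs, hm] with T h1 h2
    have h3 := h1.2.2.2 _ (mem_mapTiling (f := act (s T)) h2.2)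
    have h4 := (comp_iff T k _).1 h3
    obtain ⟨v, hv1, hv2, hv3⟩ := h4
    refine ⟨v, hv1, hv2, ?_⟩
    rw [hv3, image_image]
    exact image_congr fun x _ => (act_comp _ _ x).symm
  let v : TilSpace P → Fin k → Mo := fun T =>
    if h : ∃ v : Fin k → Mo, (∀ j, v j ∈ Pl T) ∧
      (∀ i j, act (v i) '' P = act (v j) '' P → i = j) ∧
      ⋃ j, act (v j) '' P = act (comp (s T) (m T)) '' P then h.choose else fun _ => 0
  have hv : ∀ᶠ T in (𝒰 : Filter (TilSpace P)), (∀ j, v T j ∈ Pl T) ∧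
      (∀ i j, act (v T i) '' P = act (v T j) '' P → i = j) ∧
      ⋃ j, act (v T j) '' P = act (comp (s T) (m T)) '' P := by
    filter_upwards [hpieces] with T hT
    have h1 : v T = hT.choose := dif_pos hT
    rw [h1]
    exact hT.choose_spec
  -- bounds
  have hmb : ∀ᶠ T in (𝒰 : Filter (TilSpace P)), ‖(m T).2‖ ≤ ‖m₀.2‖ + 1 := by
    have h1 : Tendsto (fun T => ‖(m T).2‖) 𝒰 (𝓝 ‖m₀.2‖) :=
      ((continuous_snd.norm).tendsto m₀).comp hmlim
    exact (h1.eventually (gt_mem_nhds (lt_add_one _))).mono fun T hT => le_of_lt hT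
  let B : ℝ := ((n : ℝ) + 2) * (R + (‖m₀.2‖ + 1)) + n + R
  have hbound : ∀ j, ∀ᶠ T in (𝒰 : Filter (TilSpace P)), v T j ∈ {m : Mo | m ∈ Iso ∧ ‖m.2‖ ≤ B} := by
    intro j
    filter_upwards [hv, hs, hm, hmb] with T h1 h2 h3 h4
    refine ⟨(h1.1 j).1, ?_⟩
    have hPne : P.Nonempty := T.2.interior_proto.mono interior_subset
    obtain ⟨p, hp⟩ := hPne
    have hx : act (v T j) p ∈ act (v T j) '' P := mem_image_of_mem _ hp
    have h5 := norm_snd_le (h1.1 j).1 hR hx
    have hx' : act (v T j) p ∈ act (comp (s T) (m T)) '' P := by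
      rw [← h1.2.2]
      exact mem_iUnion.2 ⟨j, hx⟩
    obtain ⟨q, hq, hqe⟩ := hx'
    rw [act_comp] at hqe
    have h6 : ‖act (m T) q‖ ≤ R + (‖m₀.2‖ + 1) := by
      have h7 := norm_act_le (m T) q
      have h8 := norm_fst_le_of_Iso h3.1
      have h9 : ‖(m T).1‖ * ‖q‖ ≤ 1 * R :=
        mul_le_mul h8 (hR q hq) (norm_nonneg _) zero_le_one
      linarith
    have h10 : ‖act (s T) (act (m T) q)‖ ≤ ((n : ℝ) + 2) * (R + (‖m₀.2‖ + 1)) + n := by
      have h11 := norm_act_le (s T) (act (m T) q)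
      have h12 : ‖(s T).1‖ * ‖act (m T) q‖ ≤ ((n : ℝ) + 2) * (R + (‖m₀.2‖ + 1)) :=
        mul_le_mul h2.1.2.2.1 h6 (norm_nonneg _) (by positivity)
      have h13 := h2.1.2.2.2
      linarith
    rw [hqe] at h10
    calc ‖(v T j).2‖ ≤ ‖act (v T j) p‖ + R := h5
      _ ≤ B := by linarith
  have hvlim : ∀ j, ∃ m₁, Tendsto (fun T => v T j) 𝒰 (𝓝 m₁) := fun j => by
    obtain ⟨y, -, hy⟩ := exists_tendsto_of_compact 𝒰 (isCompact_bounded_Iso B) (hbound j)
    exact ⟨y, hy⟩
  choose v₀ hv₀ using hvlim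
  have hv₀Pl : ∀ j, v₀ j ∈ Pl T₀ := by
    intro j
    rw [hLam]
    exact ⟨fun T => v T j, hv.mono fun T hT => hT.1 j, hv₀ j⟩
  have hclim : Tendsto (fun T => comp (s T) (m T)) 𝒰 (𝓝 (comp s₀ m₀)) :=
    tendsto_comp hslim hmlim
  refine ⟨v₀, hv₀Pl, ?_, ?_⟩
  · intro i j hij
    have hint : (interior (act (v₀ i) '' P)).Nonempty := T₀.2.interior_tile (hv₀Pl i).2
    obtain ⟨y, hy⟩ := hint
    have hy' : y ∈ interior (act (v₀ j) '' P) := by rw [← hij]; exact hy
    have e1 := (hv₀ i).eventually (mem_interior_nhds (hv₀Pl i).1 hy)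
    have e2 := (hv₀ j).eventually (mem_interior_nhds (hv₀Pl j).1 hy')
    obtain ⟨T, h1, h2, h3⟩ := (e1.and (e2.and hv)).exists
    exact h3.2.1 i j (T.2.1.eq_of_mem_interior (h3.1 i).2 (h3.1 j).2 (h1 (h3.1 i).1)
      (h2 (h3.1 j).1))
  · have hcomp : act s₀ '' (act m₀ '' P) = act (comp s₀ m₀) '' P := by
      rw [image_image]
      exact image_congr fun x _ => (act_comp _ _ x).symm
    change ⋃ j, act (v₀ j) '' P = act s₀ '' (act m₀ '' P)
    rw [hcomp]
    apply Subset.antisymm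
    · refine iUnion_subset fun j => ?_
      refine subset_of_tendsto_one hPc (hv₀ j) hclim ?_
      filter_upwards [hv] with T hT
      rw [← hT.2.2]
      exact subset_iUnion (fun j => act (v T j) '' P) j
    · refine subset_of_tendsto hPc hclim hv₀ ?_
      filter_upwards [hv] with T hT
      exact hT.2.2.symm.subset

theorem SigmaN_mono {n n' : ℕ} (h : n ≤ n') : SigmaN n ⊆ SigmaN n' := by
  rintro s ⟨h1, h2, h3, h4⟩
  have hn : (n : ℝ) ≤ n' := Nat.cast_le.2 h
  refine ⟨h1, ?_, by linarith, by linarith⟩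
  refine le_trans ?_ h2
  have : 1 / ((n' : ℝ) + 1) ≤ 1 / ((n : ℝ) + 1) :=
    one_div_le_one_div_of_le (by positivity) (by linarith)
  linarith

theorem FF_mono (k : ℕ) {n n' : ℕ} (h : n ≤ n') : FF P k n ⊆ FF P k n' := by
  rintro T ⟨s, hs, hc⟩
  exact ⟨s, SigmaN_mono h hs, hc⟩

/-- the conjugate of the similarity `s` by the translation by `v` -/
def conjTr (v : Plane) (s : Mo) : Mo := (s.1, s.2 + v - s.1 v)

theorem act_conjTr (v : Plane) (s : Mo) (x : Plane) :
    act (conjTr v s) x = act s (x - v) + v := by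
  simp only [act, conjTr, map_sub]
  abel

theorem mapTiling_conjTr (v : Plane) (s : Mo) (T : TilSpace P) :
    mapTiling (act (conjTr v s)) (shift v T).1 =
      mapTiling (fun x => x + v) (mapTiling (act s) T.1) := by
  rw [shift_val, mapTiling_comp, mapTiling_comp]
  congr 1
  funext x
  simp only [Function.comp_apply, act_conjTr, add_sub_cancel_right]

theorem FF_shift (k n : ℕ) (v : Plane) : ∃ n', ∀ T ∈ FF P k n, shift v T ∈ FF P k n' := by
  obtain ⟨N, hN⟩ := exists_nat_ge (‖v‖ + ((n : ℝ) + 2) * ‖v‖)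
  refine ⟨n + N, ?_⟩
  rintro T ⟨s, hs, hc⟩
  refine ⟨conjTr v s, ?_, ?_⟩
  · have h1 := SigmaN_mono (Nat.le_add_right n N) hs
    refine ⟨h1.1, h1.2.1, h1.2.2.1, ?_⟩
    have h2 : ‖s.1 v‖ ≤ ((n : ℝ) + 2) * ‖v‖ :=
      (s.1.le_opNorm v).trans (mul_le_mul_of_nonneg_right hs.2.2.1 (norm_nonneg _))
    have h3 : ‖s.2 + v - s.1 v‖ ≤ ‖s.2‖ + ‖v‖ + ‖s.1 v‖ :=
      (norm_sub_le _ _).trans (by linarith [norm_add_le s.2 v])
    have h4 := hs.2.2.2
    change ‖s.2 + v - s.1 v‖ ≤ _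
    push_cast
    linarith
  · rw [mapTiling_conjTr]
    exact isKComposition_mapTiling (isSimilarity_add v) hc

theorem exists_mem_FF {k : ℕ} (hk : 2 ≤ k) (T : TilSpace P) (h : EqualsKComposition k T.1) :
    ∃ n, T ∈ FF P k n := by
  obtain ⟨T₁, hcomp, f, hf, rfl⟩ := h
  obtain ⟨s, hs, hs0, rfl⟩ := hf.exists_act
  have h1 : 1 < ‖s.1‖ := one_lt_ratio T.2 hk (dist_act_sim hs) hcomp
  obtain ⟨N, hN⟩ := exists_nat_ge (max (1 / (‖s.1‖ - 1)) (max ‖s.1‖ ‖s.2‖))
  have hN1 : 1 / (‖s.1‖ - 1) ≤ N := (le_max_left _ _).trans hN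
  have hN2 : ‖s.1‖ ≤ N := (le_max_left _ _).trans ((le_max_right _ _).trans hN)
  have hN3 : ‖s.2‖ ≤ N := (le_max_right _ _).trans ((le_max_right _ _).trans hN)
  refine ⟨N, s, ⟨hs, ?_, by linarith, hN3⟩, hcomp⟩
  have h2 : 0 < ‖s.1‖ - 1 := by linarith
  have h3 : 1 / ((N : ℝ) + 1) ≤ ‖s.1‖ - 1 := by
    rw [div_le_iff₀ (by positivity)]
    rw [div_le_iff₀ h2] at hN1
    nlinarith
  linarith

end Pool.Agent.H81.SimTiling
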