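import Mathlib
import Pool.Agent.H81.SimTiling.Dyn
import Pool.Agent.H81.SimTiling.Self
import Pool.Agent.H81.SimTiling.Orbit

set_option autoImplicit false
open Set Topology Filter

namespace Pool.Agent.H81.SimTiling

variable {P : Set Plane}

theorem mapTiling_injective {f : Plane → Plane} (hf : Function.Injective f) :
    Function.Injective (mapTiling f) :=
  (hf.image_injective).image_injective

theorem interior_tile_pt (T : TilSpace P) : ∃ t ∈ T.1, ∃ x, ∃ ε > 0,
    Metric.ball x ε ⊆ interior t := by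
  obtain ⟨t, ht⟩ := T.2.1.nonempty
  obtain ⟨x, hx⟩ := T.2.interior_tile ht
  obtain ⟨ε, hε, hb⟩ := Metric.isOpen_iff.1 isOpen_interior x hx
  exact ⟨t, ht, x, ε, hε, hb⟩

/-- a similarity mapping a tiling onto itself has ratio one -/
theorem ratio_eq_one (T : TilSpace P) {f : Plane → Plane} {c : ℝ} (hc : 0 < c)
    (hd : ∀ x y, dist (f x) (f y) = c * dist x y) (hT : mapTiling f T.1 = T.1) : c = 1 := by
  obtain ⟨t, ht, x, ε, hε, hball⟩ := interior_tile_pt T
  have hft : f '' t ∈ T.1 := by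
    rw [← hT]
    exact mem_mapTiling ht
  obtain ⟨g, hg⟩ := (T.2.2 t ht).symm.trans (T.2.2 _ hft)
  have hdiam : Metric.diam (f '' t) = Metric.diam t := by
    rw [← hg]
    exact g.isometry.diam_image t
  have hbdd : Bornology.IsBounded t := (T.2.1.disk t ht).isCompact.isBounded
  have hbdd' : Bornology.IsBounded (f '' t) := (T.2.1.disk _ hft).isCompact.isBounded
  have hpos : 0 < Metric.diam t := by
    obtain ⟨e, he⟩ := exists_norm_one
    have hx : x ∈ t := interior_subset (hball (Metric.mem_ball_self hε))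
    have hy : x + (ε / 2) • e ∈ t := by
      refine interior_subset (hball ?_)
      rw [Metric.mem_ball, dist_eq_norm, add_sub_cancel_left, norm_smul, he, mul_one,
        Real.norm_of_nonneg (by linarith)]
      linarith
    have h1 := Metric.dist_le_diam_of_mem hbdd hy hx
    rw [dist_eq_norm, add_sub_cancel_left, norm_smul, he, mul_one,
        Real.norm_of_nonneg (by linarith)] at h1
    linarith
  have h1 : Metric.diam (f '' t) ≤ c * Metric.diam t := by
    refine Metric.diam_le_of_forall_dist_le (by positivity) ?_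
    rintro _ ⟨a, ha, rfl⟩ _ ⟨b, hb, rfl⟩
    rw [hd]
    exact mul_le_mul_of_nonneg_left (Metric.dist_le_diam_of_mem hbdd ha hb) hc.le
  have h2 : c * Metric.diam t ≤ Metric.diam (f '' t) := by
    have h3 : Metric.diam t ≤ c⁻¹ * Metric.diam (f '' t) := by
      refine Metric.diam_le_of_forall_dist_le (by positivity) ?_
      intro a ha b hb
      have h4 := Metric.dist_le_diam_of_mem hbdd' (mem_image_of_mem f ha) (mem_image_of_mem f hb)
      rw [hd] at h4
      rw [inv_mul_eq_div, le_div_iff₀ hc]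
      linarith
    rw [inv_mul_eq_div, le_div_iff₀ hc] at h3
    linarith
  rw [hdiam] at h1 h2
  have h5 : c * Metric.diam t = 1 * Metric.diam t := by rw [one_mul]; exact le_antisymm h2 h1
  exact mul_right_cancel₀ hpos.ne' h5

/-- uniqueness of the composition excludes translational symmetries -/
theorem no_translation (T : TilSpace P) {k : ℕ} {T₁ : Set (Set Plane)}
    (huniq : ∀ f : Plane → Plane, IsSimilarity f → IsKComposition k (mapTiling f T.1) T.1 →
      mapTiling f T.1 = T₁)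
    {s : Mo} (hs : SimM s) (hs1 : 1 < ‖s.1‖)
    (hcomp : IsKComposition k (mapTiling (act s) T.1) T.1)
    (w : Plane) (hw : mapTiling (fun x => x + w) T.1 = T.1) : w = 0 := by
  have hs0 : 0 < ‖s.1‖ := one_pos.trans hs1
  have hsim : IsSimilarity (act s) := hs.isSimilarity hs0
  have hT₁ := huniq _ hsim hcomp
  -- dividing a symmetry
  have hdiv : ∀ u : Plane, mapTiling (fun x => x + u) T.1 = T.1 →
      ∃ u' : Plane, mapTiling (fun x => x + u') T.1 = T.1 ∧ ‖s.1‖ * ‖u'‖ = ‖u‖ := by
    intro u hu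
    have h1 := isKComposition_mapTiling (isSimilarity_add u) hcomp
    rw [hu, mapTiling_comp] at h1
    have h2 := huniq _ ((isSimilarity_add u).comp hsim) h1
    obtain ⟨x₀, hx₀⟩ := hs.surjective hs0 (u + s.2)
    have hx₁ : s.1 x₀ = u := by
      unfold act at hx₀
      exact add_right_cancel hx₀
    refine ⟨x₀, ?_, ?_⟩
    · apply mapTiling_injective hsim.injective
      rw [mapTiling_comp, hT₁, ← h2]
      congr 1
      funext x
      simp only [Function.comp_apply, act, map_add, hx₁]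
      abel
    · rw [← hx₁, hs]
  have hiter : ∀ j : ℕ, ∃ u : Plane, mapTiling (fun x => x + u) T.1 = T.1 ∧
      ‖s.1‖ ^ j * ‖u‖ = ‖w‖ := by
    intro j
    induction j with
    | zero => exact ⟨w, hw, by simp⟩
    | succ j ih =>
      obtain ⟨u, hu, hun⟩ := ih
      obtain ⟨u', hu', hun'⟩ := hdiv u hu
      exact ⟨u', hu', by rw [pow_succ, mul_assoc, hun', hun]⟩
  by_contra hw0
  have hwpos : 0 < ‖w‖ := norm_pos_iff.2 hw0
  obtain ⟨t, ht, x, ε, hε, hball⟩ := interior_tile_pt T
  obtain ⟨j, hj⟩ := pow_unbounded_of_one_lt (‖w‖ / ε) hs1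
  obtain ⟨u, hu, hun⟩ := hiter j
  have hpj : 0 < ‖s.1‖ ^ j := pow_pos hs0 j
  have hueps : ‖u‖ < ε := by
    rw [div_lt_iff₀ hε] at hj
    by_contra hcon
    push Not at hcon
    have := mul_le_mul_of_nonneg_left hcon hpj.le
    linarith
  have hupos : 0 < ‖u‖ := by
    by_contra hcon
    have : ‖u‖ = 0 := le_antisymm (not_lt.1 hcon) (norm_nonneg _)
    rw [this, mul_zero] at hun
    exact hwpos.ne hun
  have htu : (fun x => x + u) '' t ∈ T.1 := by
    rw [← hu]
    exact mem_mapTiling ht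
  have heq : (fun x => x + u) '' t = t := by
    refine T.2.1.eq_of_mem_interior htu ht (x := x + u) ?_ ?_
    · have h1 : (Homeomorph.addRight u) '' interior t = interior ((Homeomorph.addRight u) '' t) :=
        (Homeomorph.addRight u).image_interior t
      change x + u ∈ interior ((Homeomorph.addRight u) '' t)
      rw [← h1]
      exact ⟨x, hball (Metric.mem_ball_self hε), rfl⟩
    · refine hball ?_
      rw [Metric.mem_ball, dist_eq_norm, add_sub_cancel_left]
      exact hueps
  have hx : x ∈ t := interior_subset (hball (Metric.mem_ball_self hε))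
  have hall : ∀ i : ℕ, x + (i : ℝ) • u ∈ t := by
    intro i
    induction i with
    | zero => simpa using hx
    | succ i ih =>
      have h1 : (x + (i : ℝ) • u) + u ∈ (fun x => x + u) '' t := ⟨_, ih, rfl⟩
      rw [heq] at h1
      have h2 : x + ((i + 1 : ℕ) : ℝ) • u = (x + (i : ℝ) • u) + u := by
        push_cast
        rw [add_smul, one_smul, add_assoc]
      rw [h2]
      exact h1
  obtain ⟨R, hR⟩ := (T.2.1.disk t ht).isCompact.isBounded.exists_norm_le
  obtain ⟨i, hi⟩ := exists_nat_gt ((R + ‖x‖) / ‖u‖)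
  have h1 := hR _ (hall i)
  have h2 : ‖(i : ℝ) • u‖ ≤ ‖x + (i : ℝ) • u‖ + ‖x‖ := by
    have : (i : ℝ) • u = (x + (i : ℝ) • u) - x := by abel
    conv_lhs => rw [this]
    exact norm_sub_le _ _
  rw [norm_smul, Real.norm_natCast] at h2
  rw [div_lt_iff₀ hupos] at hi
  linarith

/-- A prototile all of whose tilings are similarity tilings with a unique composition does not
exist. -/
theorem main_false (hne : ∃ T, Admits P T)
    (H : ∀ T, Admits P T → ∃ k, 2 ≤ k ∧ IsSimilarityTiling k T ∧ UniqueKComposition k T) :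
    False := by
  obtain ⟨T₀, hT₀⟩ := hne
  have : Nonempty (TilSpace P) := ⟨⟨T₀, hT₀⟩⟩
  obtain ⟨T, k, n, hk2, hshift, hmin⟩ := dyn_main (X := TilSpace P) (V := Plane) shift
    continuous_shift shift_zero shift_add (FF P) isClosed_FF (fun k n n' h => FF_mono k h)
    FF_shift (by
      intro T
      obtain ⟨k, hk, hsim, -⟩ := H T.1 T.2
      obtain ⟨n, hn⟩ := exists_mem_FF hk T hsim.2.2.1
      exact ⟨k, hk, n, hn⟩)
  obtain ⟨k', hk', hsim, huq⟩ := H T.1 T.2
  have hTF : T ∈ FF P k n := by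
    have := hshift 0
    rwa [shift_zero] at this
  obtain ⟨s, hs, hcomp⟩ := hTF
  have hEk : EqualsKComposition k T.1 := ⟨_, hcomp, act s, SigmaN_isSimilarity hs, rfl⟩
  have hkk : k' = k := by
    rcases lt_trichotomy k' k with h | h | h
    · exfalso
      obtain ⟨m, hm⟩ := exists_mem_FF hk' T hsim.2.2.1
      exact hmin k' hk' h m hm
    · exact h
    · exfalso
      exact hsim.2.2.2 k (by omega) h hEk
  subst hkk
  obtain ⟨T₁, -, hT₁⟩ := huq
  have huniq : ∀ f : Plane → Plane, IsSimilarity f → IsKComposition k' (mapTiling f T.1) T.1 →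
      mapTiling f T.1 = T₁ := fun f hf hc => hT₁ _ ⟨hc, f, hf, rfl⟩
  have hs1 : 1 < ‖s.1‖ := one_lt_ratio T.2 hk' (dist_act_sim hs.1) hcomp
  have hnt := fun w hw => no_translation T huniq hs.1 hs1 hcomp w hw
  -- symmetries have bounded orbits
  obtain ⟨C, hC⟩ := orbit_bounded {g : Plane ≃ᵢ Plane | mapTiling g T.1 = T.1}
    (by
      intro g hg
      have hg' : mapTiling g T.1 = T.1 := hg
      change mapTiling g.symm T.1 = T.1
      conv_lhs => rw [← hg', mapTiling_comp]
      exact mapTiling_id_of (fun x => g.symm_apply_apply x) _)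
    (by
      intro g hg g' hg'
      have h1 : mapTiling g T.1 = T.1 := hg
      have h2 : mapTiling g' T.1 = T.1 := hg'
      change mapTiling (g' ∘ g) T.1 = T.1
      rw [← mapTiling_comp, h1, h2])
    (mapTiling_id_of (fun x => rfl) _)
    (by
      intro g hg w hw
      have h1 : mapTiling g T.1 = T.1 := hg
      have h2 : (g : Plane → Plane) = fun x => x + w := funext hw
      rw [h2] at h1
      exact hnt w h1)
  -- self-similarities that almost fix a given point
  have hself : ∀ v : Plane, ∃ f : Plane → Plane, IsSimilarity f ∧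
      (∃ c : ℝ, 1 + 1 / ((n : ℝ) + 1) ≤ c ∧ ∀ x y, dist (f x) (f y) = c * dist x y) ∧
      ‖f v‖ ≤ ‖v‖ + n ∧ mapTiling f T.1 = T₁ := by
    intro v
    obtain ⟨q, hq, hqc⟩ := hshift (-v)
    have hsimf : IsSimilarity (act (conjTr v q)) := by
      have h0 : 0 < ‖(conjTr v q).1‖ := SigmaN_pos (s := q) hq
      exact SimM.isSimilarity (m := conjTr v q) hq.1 h0
    have h1 := isKComposition_mapTiling (isSimilarity_add v) hqc
    have h2 : shift v (shift (-v) T) = T := by
      rw [← shift_add, add_neg_cancel, shift_zero]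
    have h3 : mapTiling (fun x => x + v) (shift (-v) T).1 = T.1 := by
      rw [← shift_val, h2]
    rw [← mapTiling_conjTr, h2, h3] at h1
    refine ⟨_, hsimf, ⟨‖q.1‖, hq.2.1, ?_⟩, ?_, huniq _ hsimf h1⟩
    · exact dist_act_sim (m := conjTr v q) hq.1
    · rw [act_conjTr, sub_self]
      have h4 : act q 0 = q.2 := by simp [act]
      rw [h4]
      have h5 := hq.2.2.2
      linarith [norm_add_le q.2 v]
  obtain ⟨f₀, hf₀, ⟨c₀, hc₀, hd₀⟩, -, hm₀⟩ := hself 0
  obtain ⟨f₀', hf₀', hleft, hright⟩ := hf₀.exists_inverse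
  have hc₀pos : 0 < c₀ := lt_of_lt_of_le (by positivity) hc₀
  have hbound : ∀ f : Plane → Plane, IsSimilarity f → mapTiling f T.1 = T₁ →
      ‖f 0‖ ≤ c₀ * C + ‖f₀ 0‖ := by
    intro f hf hm
    have hsg : IsSimilarity (f₀' ∘ f) := hf₀'.comp hf
    have hmg : mapTiling (f₀' ∘ f) T.1 = T.1 := by
      rw [← mapTiling_comp, hm, ← hm₀, mapTiling_comp]
      exact mapTiling_id_of hleft _
    obtain ⟨hsurj, c, hc, hcd⟩ := hsg.dist_eq
    have hc1 : c = 1 := ratio_eq_one T hc hcd hmg
    have hiso : Isometry (f₀' ∘ f) := Isometry.of_dist_eq fun x y => by rw [hcd, hc1, one_mul]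
    let g : Plane ≃ᵢ Plane :=
      IsometryEquiv.mk (Equiv.ofBijective _ ⟨hiso.injective, hsurj⟩) hiso
    have hgm : mapTiling g T.1 = T.1 := hmg
    have h1 : ‖g 0‖ ≤ C := hC g hgm
    have h2 : f 0 = f₀ (g 0) := by
      change f 0 = f₀ (f₀' (f 0))
      rw [hright]
    have h3 : dist (f₀ (g 0)) (f₀ 0) = c₀ * ‖g 0‖ := by rw [hd₀, dist_zero_right]
    have h4 : ‖f₀ (g 0)‖ ≤ dist (f₀ (g 0)) (f₀ 0) + ‖f₀ 0‖ := by
      rw [dist_eq_norm]
      have := norm_add_le (f₀ (g 0) - f₀ 0) (f₀ 0)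
      rwa [sub_add_cancel] at this
    rw [h2]
    have h5 : c₀ * ‖g 0‖ ≤ c₀ * C := mul_le_mul_of_nonneg_left h1 hc₀pos.le
    linarith
  obtain ⟨v, hv⟩ : ∃ v : Plane, ‖v‖ = ((n : ℝ) + 1) * (|n + (c₀ * C + ‖f₀ 0‖)| + 1) :=
    exists_norm_eq Plane (by positivity)
  obtain ⟨f, hf, ⟨c, hc, hd⟩, hfv, hm⟩ := hself v
  have h1 := hbound f hf hm
  have h2 : c * ‖v‖ ≤ ‖f v‖ + ‖f 0‖ := by
    have h3 : dist (f v) (f 0) = c * ‖v‖ := by rw [hd, dist_zero_right]
    rw [← h3, dist_eq_norm]
    exact norm_sub_le _ _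
  have h4 : (1 + 1 / ((n : ℝ) + 1)) * ‖v‖ ≤ c * ‖v‖ :=
    mul_le_mul_of_nonneg_right hc (norm_nonneg _)
  have h5 : (1 / ((n : ℝ) + 1)) * ‖v‖ ≤ n + (c₀ * C + ‖f₀ 0‖) := by linarith
  have h6 : (1 / ((n : ℝ) + 1)) * ‖v‖ = |n + (c₀ * C + ‖f₀ 0‖)| + 1 := by
    rw [hv]
    have : (n : ℝ) + 1 ≠ 0 := by positivity
    field_simp
  rw [h6] at h5
  linarith [le_abs_self (n + (c₀ * C + ‖f₀ 0‖))]

end Pool.Agent.H81.SimTiling
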